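import Pool.Agent.Lib.MP_98022b_h30.Poly

/-!
# Passing to blocks of letters, and the straightening automorphism
-/

namespace Pool.Agent.MP98022b

open TreeAut

/-! ### Blocks of `m` letters -/

section Block

variable {X : Type*}

/-- The action of a tree automorphism on the words of length `m`. -/
def levelPerm (m : ℕ) (g : TreeAut X) : Equiv.Perm (List.Vector X m) where
  toFun v := ⟨g v.1, by rw [length_apply, v.2]⟩
  invFun v := ⟨g⁻¹ v.1, by rw [length_apply, v.2]⟩
  left_inv v := Subtype.ext (inv_apply_self g v.1)
  right_inv v := Subtype.ext (apply_inv_self g v.1)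

/-- The decomposition of a tree automorphism at level `m`. -/
def levelHom (X : Type*) (m : ℕ) : TreeAut X →* Wr (TreeAut X) (List.Vector X m) where
  toFun g := ⟨levelPerm m g, fun v => g.sec v.1⟩
  map_one' := by
    apply Wr.ext
    · rfl
    · funext v
      exact sec_one _
  map_mul' g h := by
    apply Wr.ext
    · rfl
    · funext v
      exact sec_mul g h v.1

/-- The block map `Aut(X^*) → Aut((X^m)^*)`. -/
def block (X : Type*) (m : ℕ) : TreeAut X →* TreeAut (List.Vector X m) := act (levelHom X m)

lemma root_block (m : ℕ) (g : TreeAut X) (v : List.Vector X m) :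
    ((block X m g).root v).1 = g v.1 := by
  rw [block, root_act]
  rfl

lemma sec_block (m : ℕ) (g : TreeAut X) (v : List.Vector X m) :
    (block X m g).sec [v] = block X m (g.sec v.1) := by
  rw [block, sec_act]
  rfl

lemma apply_of_block_eq_one (m : ℕ) (n : ℕ) : ∀ (g : TreeAut X), block X m g = 1 →
    ∀ w : List X, w.length = m * n → g w = w := by
  induction n with
  | zero =>
    intro g _ w hw
    rw [Nat.mul_zero, List.length_eq_zero_iff] at hw
    rw [hw, apply_nil]
  | succ n ih =>
    intro g hg w hw
    have hlen : (w.take m).length = m := by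
      rw [List.length_take, hw, Nat.mul_succ]
      omega
    have h1 : g (w.take m) = w.take m := by
      have h2 := root_block m g ⟨w.take m, hlen⟩
      rw [hg, root_one] at h2
      exact h2.symm
    have h2 : block X m (g.sec (w.take m)) = 1 := by
      have h3 := sec_block m g ⟨w.take m, hlen⟩
      rw [hg, sec_one] at h3
      exact h3.symm
    have h3 : (w.drop m).length = m * n := by
      rw [List.length_drop, hw, Nat.mul_succ]
      omega
    have h4 := ih _ h2 _ h3
    conv_lhs => rw [← List.take_append_drop m w]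
    rw [apply_append, h1, h4, List.take_append_drop]

lemma block_injective {m : ℕ} (hm : 1 ≤ m) : Function.Injective (block X m) := by
  rw [injective_iff_map_eq_one]
  intro g hg
  refine ext_fun fun w => ?_
  rw [one_apply]
  -- the word `w` repeated `m` times
  have hlen : (List.replicate m w).flatten.length = m * w.length := by
    simp
  have h1 := apply_of_block_eq_one m w.length g hg _ hlen
  obtain ⟨k, rfl⟩ := Nat.exists_eq_add_of_le' hm
  rw [List.replicate_succ, List.flatten_cons, apply_append] at h1
  exact List.append_inj_left h1 (by simp)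

end Block

/-! ### The straightening automorphism -/

section Delta

variable {Y : Type*} [DecidableEq Y]

/-- The automorphism acting on the first letter by `p` and on each further letter `x_(i+1)` by
the transposition of `y₀` and `x_i`, as a function. -/
def deltaFun (y₀ : Y) : List Y → Equiv.Perm Y → List Y
  | [], _ => []
  | x :: w, p => p x :: deltaFun y₀ w (Equiv.swap y₀ x)

/-- The inverse of `deltaFun`. -/
def deltaInv (y₀ : Y) : List Y → Equiv.Perm Y → List Y
  | [], _ => []
  | z :: w, p => p⁻¹ z :: deltaInv y₀ w (Equiv.swap y₀ (p⁻¹ z))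

lemma deltaInv_deltaFun (y₀ : Y) (w : List Y) (p : Equiv.Perm Y) :
    deltaInv y₀ (deltaFun y₀ w p) p = w := by
  induction w generalizing p with
  | nil => rfl
  | cons x w ih => simp [deltaFun, deltaInv, ih]

lemma deltaFun_deltaInv (y₀ : Y) (w : List Y) (p : Equiv.Perm Y) :
    deltaFun y₀ (deltaInv y₀ w p) p = w := by
  induction w generalizing p with
  | nil => rfl
  | cons x w ih => simp [deltaFun, deltaInv, ih]

lemma length_deltaFun (y₀ : Y) (w : List Y) (p : Equiv.Perm Y) :
    (deltaFun y₀ w p).length = w.length := by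
  induction w generalizing p with
  | nil => rfl
  | cons x w ih => simp [deltaFun, ih]

lemma prefix_deltaFun (y₀ : Y) (u w : List Y) (p : Equiv.Perm Y) :
    deltaFun y₀ u p <+: deltaFun y₀ (u ++ w) p := by
  induction u generalizing p with
  | nil => exact List.nil_prefix
  | cons x u ih =>
    rw [List.cons_append, deltaFun, deltaFun, List.prefix_cons_inj]
    exact ih _

/-- The automorphism `deltaFun`. -/
def deltaP (y₀ : Y) (p : Equiv.Perm Y) : TreeAut Y :=
  ⟨{ toFun := fun w => deltaFun y₀ w p
     invFun := fun w => deltaInv y₀ w p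
     left_inv := fun w => deltaInv_deltaFun y₀ w p
     right_inv := fun w => deltaFun_deltaInv y₀ w p },
   ⟨fun w => length_deltaFun y₀ w p, fun u w => prefix_deltaFun y₀ u w p⟩⟩

lemma deltaP_cons (y₀ : Y) (p : Equiv.Perm Y) (x : Y) (w : List Y) :
    deltaP y₀ p (x :: w) = p x :: deltaP y₀ (Equiv.swap y₀ x) w := rfl

lemma root_deltaP (y₀ : Y) (p : Equiv.Perm Y) : (deltaP y₀ p).root = p := by
  ext x
  have h := apply_singleton (deltaP y₀ p) x
  rw [deltaP_cons] at h
  exact (List.cons.inj h).1.symm

lemma sec_deltaP (y₀ : Y) (p : Equiv.Perm Y) (x : Y) :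
    (deltaP y₀ p).sec [x] = deltaP y₀ (Equiv.swap y₀ x) := by
  refine ext_fun fun w => ?_
  have h := apply_cons (deltaP y₀ p) x w
  rw [deltaP_cons] at h
  exact (List.cons.inj h).2.symm

/-- The rooted automorphism given by a permutation of the letters. -/
def rooted (p : Equiv.Perm Y) : TreeAut Y := mk' p fun _ => 1

omit [DecidableEq Y] in
lemma root_rooted (p : Equiv.Perm Y) : (rooted p).root = p := root_mk' _ _

omit [DecidableEq Y] in
lemma sec_rooted (p : Equiv.Perm Y) (x : Y) : (rooted p).sec [x] = 1 := sec_mk' _ _ _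

omit [DecidableEq Y] in
lemma rooted_mem_finitary (p : Equiv.Perm Y) : rooted p ∈ finitary Y := by
  rw [mem_finitary]
  refine ⟨1, fun v hv => ?_⟩
  cases v with
  | nil => simp at hv
  | cons x v => rw [sec_cons, sec_rooted, sec_one]

/-- The straightening automorphism `δ(x₁ x₂ x₃ …) = x₁ τ_(x₁)(x₂) τ_(x₂)(x₃) …`, with `τ_x` the
transposition of `y₀` and `x`. -/
def delta (y₀ : Y) : TreeAut Y := deltaP y₀ 1

lemma deltaP_eq (y₀ : Y) (p : Equiv.Perm Y) : deltaP y₀ p = rooted p * delta y₀ := by
  apply ext_root
  · rw [root_deltaP, root_mul, root_rooted, delta, root_deltaP, mul_one]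
  · intro x
    rw [sec_deltaP, sec_mul, delta, apply_singleton, sec_rooted, sec_deltaP, one_mul]

lemma root_delta (y₀ : Y) : (delta y₀).root = 1 := root_deltaP _ _

lemma sec_delta (y₀ x : Y) : (delta y₀).sec [x] = rooted (Equiv.swap y₀ x) * delta y₀ := by
  rw [delta, sec_deltaP, deltaP_eq]
  rfl

/-- Conjugation by the straightening automorphism. -/
def straighten (y₀ : Y) (t : TreeAut Y) : TreeAut Y := delta y₀ * t * (delta y₀)⁻¹

lemma straighten_one (y₀ : Y) : straighten y₀ (1 : TreeAut Y) = 1 := by
  simp [straighten]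

lemma root_straighten (y₀ : Y) (t : TreeAut Y) : (straighten y₀ t).root = t.root := by
  rw [straighten, root_mul, root_mul, root_inv, root_delta, one_mul, inv_one, mul_one]

lemma sec_straighten (y₀ : Y) (t : TreeAut Y) (z : Y) :
    (straighten y₀ t).sec [z] = rooted (Equiv.swap y₀ (t.root z)) *
      straighten y₀ (t.sec [z]) * (rooted (Equiv.swap y₀ z))⁻¹ := by
  have h1 : (delta y₀)⁻¹ [z] = [z] := by
    rw [apply_singleton, root_inv, root_delta]
    rfl
  rw [straighten, sec_mul, sec_mul, h1, apply_singleton, sec_delta, sec_inv, h1, sec_delta,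
    straighten]
  group

/-- Straightening an automorphism all of whose first-level sections are fine. -/
lemma straighten_mem_tower [Finite Y] (y₀ : Y) (k : ℕ) {t : TreeAut Y}
    (h : ∀ z, straighten y₀ (t.sec [z]) ∈ tower y₀ k) : straighten y₀ t ∈ tower y₀ k := by
  have hf : ∀ p : Equiv.Perm Y, rooted p ∈ tower y₀ k := fun p =>
    tower_mono y₀ (Nat.zero_le k) (rooted_mem_finitary p)
  refine mem_tower_of_sec y₀ k fun z => ?_
  rw [sec_straighten]
  exact Subgroup.mul_mem _ (Subgroup.mul_mem _ (hf _) (h z)) (Subgroup.inv_mem _ (hf _))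

/-- Straightening an automorphism with `t|_p = t` all of whose other first-level sections are
fine. -/
lemma straighten_mem_tower_succ [Finite Y] (y₀ : Y) (k : ℕ) {t : TreeAut Y} {p : Y}
    (hp : t.sec [p] = t)
    (h : ∀ z, z ≠ p → straighten y₀ (t.sec [z]) ∈ tower y₀ k) :
    straighten y₀ t ∈ tower y₀ (k + 1) := by
  have hf : ∀ p : Equiv.Perm Y, rooted p ∈ tower y₀ k := fun p =>
    tower_mono y₀ (Nat.zero_le k) (rooted_mem_finitary p)
  have hother : ∀ z, z ≠ p → (straighten y₀ t).sec [z] ∈ tower y₀ k := by
    intro z hz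
    rw [sec_straighten]
    exact Subgroup.mul_mem _ (Subgroup.mul_mem _ (hf _) (h z hz)) (Subgroup.inv_mem _ (hf _))
  have hdir : (straighten y₀ t).sec [p] ∈ fixB (tower y₀ k) y₀ := by
    have hsp := sec_straighten y₀ t p
    rw [hp] at hsp
    set s := straighten y₀ t with hs
    have hroot : s.root = t.root := root_straighten y₀ t
    have hinv : (rooted (Equiv.swap y₀ p))⁻¹.root = Equiv.swap y₀ p := by
      rw [root_inv, root_rooted, Equiv.swap_inv]
    have hinvsec : ∀ z, (rooted (Equiv.swap y₀ p))⁻¹.sec [z] = 1 := by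
      intro z
      rw [sec_inv, apply_singleton, sec_rooted, inv_one]
    have hsec : ∀ z, (s.sec [p]).sec [z] = s.sec [Equiv.swap y₀ p z] := by
      intro z
      conv_lhs => rw [hsp]
      rw [sec_mul, sec_mul, hinvsec, mul_one, apply_singleton, apply_singleton, sec_rooted,
        one_mul, hinv]
    refine ⟨?_, ?_, ?_⟩
    · rw [hsp, root_mul, root_mul, hinv, root_rooted, hroot]
      simp
    · rw [hsec, Equiv.swap_apply_left]
    · intro z hz
      rw [hsec]
      apply hother
      intro h1
      apply hz
      have h2 : Equiv.swap y₀ p z = Equiv.swap y₀ p y₀ := by rw [h1, Equiv.swap_apply_left]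
      exact (Equiv.swap y₀ p).injective h2
  refine mem_tower_of_sec y₀ (k + 1) fun z => ?_
  by_cases hz : z = p
  · rw [hz]
    exact (fixB_le_genB _ y₀).trans (genB_le_next (secClosed_tower y₀ k) y₀) hdir
  · exact tower_le_succ y₀ k (hother z hz)

end Delta

end Pool.Agent.MP98022b
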