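import Pool.Agent.Lib.MP_98022b_h30.Wreath

/-!
# Contracting wreath recursions and classes of groups closed under directed colimits: definitions
-/

namespace Pool.Agent.MP98022b

/-- `P` is a class of groups closed under isomorphisms and subgroups, overgroups of finite index,
direct products of two groups, and directed colimits. -/
structure IsColimitClass (P : ∀ (G : Type) [Group G], Prop) : Prop where
  /-- closed under subgroups (and isomorphisms) -/
  of_injective : ∀ {G H : Type} [Group G] [Group H] (f : G →* H), Function.Injective f → P H → P G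
  /-- closed under overgroups of finite index -/
  of_finiteIndex : ∀ {G : Type} [Group G] (H : Subgroup G), H.FiniteIndex → P H → P G
  /-- closed under direct products of two groups -/
  prod : ∀ {G H : Type} [Group G] [Group H], P G → P H → P (G × H)
  /-- closed under directed colimits: `L` is the colimit of the directed system `(G i, f i j)`
  with canonical maps `g i` -/
  colimit : ∀ {ι : Type} [Preorder ι] [IsDirectedOrder ι] [Nonempty ι]
    (G : ι → Type) [∀ i, Group (G i)] (f : ∀ i j, i ≤ j → G i →* G j)
    {L : Type} [Group L] (g : ∀ i, G i →* L),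
    (∀ i x, f i i le_rfl x = x) →
    (∀ i j k (hij : i ≤ j) (hjk : j ≤ k) x, f j k hjk (f i j hij x) = f i k (hij.trans hjk) x) →
    (∀ i j (hij : i ≤ j) x, g j (f i j hij x) = g i x) →
    (∀ y, ∃ i x, g i x = y) →
    (∀ i x, g i x = 1 → ∃ j, ∃ hij : i ≤ j, f i j hij x = 1) →
    (∀ i, P (G i)) → P L

/-- A wreath recursion is contracting with nucleus in the finite set `N`. -/
def Contracting {Γ Y : Type} [Group Γ] (ψ : Γ →* Wr Γ Y) (N : Set Γ) : Prop :=
  N.Finite ∧ ∀ g, ∃ n, ∀ v : List Y, n ≤ v.length → scw ψ v g ∈ N

end Pool.Agent.MP98022b
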