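import Pool.Agent.Lib.MP_98022b_h30.Block
import Pool.Agent.Lib.MP_98022b_h30.ContractingDefs

/-!
# Classes of groups closed under subgroups, finite index overgroups, products and colimits:
quotients defined by wreath recursions
-/

namespace Pool.Agent.MP98022b

open TreeAut

variable {P : ∀ (G : Type) [Group G], Prop}

namespace IsColimitClass

variable (hP : IsColimitClass P)
include hP

lemma subgroup {G : Type} [Group G] (H : Subgroup G) (h : P G) : P H :=
  hP.of_injective H.subtype H.subtype_injective h

lemma of_subsingleton {G H : Type} [Group G] [Group H] [Subsingleton G] (h : P H) : P G :=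
  hP.of_injective (1 : G →* H) (fun x y _ => Subsingleton.elim x y) h

/-- Finite powers. -/
lemma pow {G : Type} [Group G] (h : P G) (n : ℕ) : P (Fin n → G) := by
  induction n with
  | zero => exact hP.of_subsingleton h
  | succ n ih =>
    refine hP.of_injective (H := G × (Fin n → G))
      { toFun := fun x => (x 0, fun i => x i.succ)
        map_one' := rfl
        map_mul' := fun x y => rfl } ?_ (hP.prod h ih)
    intro x y hxy
    have h1 := congrArg Prod.fst hxy
    have h2 := congrArg Prod.snd hxy
    funext i
    refine Fin.cases h1 (fun j => ?_) i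
    exact congrFun h2 j

lemma pi {G : Type} [Group G] {ι : Type} [Finite ι] (h : P G) : P (ι → G) := by
  obtain ⟨n, ⟨e⟩⟩ := Finite.exists_equiv_fin ι
  refine hP.of_injective (H := Fin n → G)
    { toFun := fun x i => x (e.symm i)
      map_one' := rfl
      map_mul' := fun x y => rfl } ?_ (hP.pow h n)
  intro x y hxy
  funext i
  have := congrFun hxy (e i)
  simpa using this

/-- Wreath products with finite symmetric groups. -/
lemma wr {G : Type} [Group G] {Y : Type} [Finite Y] (h : P G) : P (Wr G Y) := by
  have hker : P (Wr.permHom (G := G) (Y := Y)).ker :=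
    hP.of_injective Wr.kerHom Wr.kerHom_injective (hP.pi h)
  exact hP.of_finiteIndex _ inferInstance hker

/-- A quotient by an increasing union of normal subgroups with quotients in the class. -/
lemma of_iUnion {Γ L : Type} [Group Γ] [Group L] (E : ℕ → Subgroup Γ) (hn : ∀ n, (E n).Normal)
    (hmono : Monotone E) (hE : ∀ n, P (Γ ⧸ E n)) (f : Γ →* L)
    (hf : Function.Surjective f) (hker : ∀ g, f g = 1 ↔ ∃ n, g ∈ E n) : P L := by
  have hle : ∀ i j, i ≤ j → E i ≤ (E j).comap (MonoidHom.id Γ) := fun i j hij x hx => hmono hij hx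
  have hle' : ∀ i, ∀ x ∈ E i, f x = 1 := fun i x hx => (hker x).2 ⟨i, hx⟩
  refine hP.colimit (fun n => Γ ⧸ E n)
    (fun i j hij => QuotientGroup.map (E i) (E j) (MonoidHom.id Γ) (hle i j hij))
    (fun i => QuotientGroup.lift (E i) f (hle' i)) ?_ ?_ ?_ ?_ ?_ hE
  · intro i x
    induction x using QuotientGroup.induction_on with
    | H z => rfl
  · intro i j k hij hjk x
    induction x using QuotientGroup.induction_on with
    | H z => rfl
  · intro i j hij x
    induction x using QuotientGroup.induction_on with
    | H z => rfl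
  · intro y
    obtain ⟨x, rfl⟩ := hf y
    exact ⟨0, QuotientGroup.mk x, rfl⟩
  · intro i x
    induction x using QuotientGroup.induction_on with
    | H z =>
      intro hz
      obtain ⟨n, hn⟩ := (hker z).1 hz
      refine ⟨max i n, le_max_left _ _, ?_⟩
      have : z ∈ E (max i n) := hmono (le_max_right i n) hn
      exact (QuotientGroup.eq_one_iff z).2 this

/-- An increasing union of subgroups in the class. -/
lemma of_union {L : Type} [Group L] (K : ℕ → Subgroup L) (hmono : Monotone K)
    (hK : ∀ n, P (K n)) (htop : ∀ g, ∃ n, g ∈ K n) : P L := by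
  refine hP.colimit (fun n => K n) (fun i j hij => Subgroup.inclusion (hmono hij))
    (fun i => (K i).subtype) ?_ ?_ ?_ ?_ ?_ hK
  · intro i x; rfl
  · intro i j k hij hjk x; rfl
  · intro i j hij x; rfl
  · intro y
    obtain ⟨n, hn⟩ := htop y
    exact ⟨n, ⟨y, hn⟩, rfl⟩
  · intro i x hx
    exact ⟨i, le_rfl, Subtype.ext hx⟩

end IsColimitClass

/-! ### The kernels of the iterated recursion -/

section Kernels

variable {Γ Y : Type} [Group Γ]

/-- The kernels of the iterates of a wreath recursion. -/
def iterKer (ψ : Γ →* Wr Γ Y) : ℕ → Subgroup Γ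
  | 0 => ⊥
  | n + 1 =>
    { carrier := {g | (ψ g).perm = 1 ∧ ∀ y, (ψ g).fn y ∈ iterKer ψ n}
      one_mem' := by
        refine ⟨by simp, fun y => ?_⟩
        rw [map_one, Wr.one_fn]
        exact Subgroup.one_mem _
      mul_mem' := by
        rintro a b ⟨ha1, ha2⟩ ⟨hb1, hb2⟩
        refine ⟨by rw [map_mul, Wr.mul_perm, ha1, hb1, one_mul], fun y => ?_⟩
        rw [map_mul, Wr.mul_fn]
        exact Subgroup.mul_mem _ (ha2 _) (hb2 _)
      inv_mem' := by
        rintro a ⟨ha1, ha2⟩
        refine ⟨by rw [map_inv, Wr.inv_perm, ha1, inv_one], fun y => ?_⟩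
        rw [map_inv, Wr.inv_fn]
        exact Subgroup.inv_mem _ (ha2 _) }

lemma mem_iterKer_succ {ψ : Γ →* Wr Γ Y} {n : ℕ} {g : Γ} :
    g ∈ iterKer ψ (n + 1) ↔ (ψ g).perm = 1 ∧ ∀ y, (ψ g).fn y ∈ iterKer ψ n := Iff.rfl

lemma iterKer_normal (ψ : Γ →* Wr Γ Y) (n : ℕ) : (iterKer ψ n).Normal := by
  induction n with
  | zero => exact inferInstanceAs (⊥ : Subgroup Γ).Normal
  | succ n ih =>
    refine ⟨fun a ha b => ?_⟩
    obtain ⟨h1, h2⟩ := mem_iterKer_succ.1 ha
    refine mem_iterKer_succ.2 ⟨?_, fun y => ?_⟩
    · rw [map_mul, map_mul, map_inv, Wr.mul_perm, Wr.mul_perm, Wr.inv_perm, h1, mul_one,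
        mul_inv_cancel]
    · rw [map_mul, map_mul, map_inv, Wr.mul_fn, Wr.mul_fn, Wr.inv_fn, Wr.inv_perm, h1]
      exact ih.conj_mem _ (h2 _) _

lemma iterKer_le_succ (ψ : Γ →* Wr Γ Y) (n : ℕ) : iterKer ψ n ≤ iterKer ψ (n + 1) := by
  induction n with
  | zero =>
    intro g hg
    have : g = 1 := hg
    subst this
    exact Subgroup.one_mem _
  | succ n ih =>
    intro g hg
    exact ⟨hg.1, fun y => ih (hg.2 y)⟩

lemma iterKer_mono (ψ : Γ →* Wr Γ Y) : Monotone (iterKer ψ) :=
  monotone_nat_of_le_succ (iterKer_le_succ ψ)

lemma mem_iterKer_of {ψ : Γ →* Wr Γ Y} {n : ℕ} : ∀ {g : Γ}, act ψ g = 1 →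
    (∀ v : List Y, v.length = n → scw ψ v g = 1) → g ∈ iterKer ψ n := by
  induction n with
  | zero =>
    intro g _ h
    exact h [] rfl
  | succ n ih =>
    intro g hg h
    refine mem_iterKer_succ.2 ⟨?_, fun y => ih ?_ fun v hv => ?_⟩
    · rw [← root_act, hg, root_one]
    · rw [← sec_act, hg, sec_one]
    · have := h (y :: v) (by rw [List.length_cons, hv])
      rwa [scw_cons] at this

lemma act_of_mem_iterKer {ψ : Γ →* Wr Γ Y} {n : ℕ} : ∀ {g : Γ}, g ∈ iterKer ψ n →
    act ψ g = 1 := by
  induction n with
  | zero =>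
    intro g hg
    have : g = 1 := hg
    rw [this, map_one]
  | succ n ih =>
    intro g hg
    refine ext_root ?_ fun y => ?_
    · rw [root_act, hg.1, root_one]
    · rw [sec_act, ih (hg.2 y), sec_one]

/-- The quotients by the kernels of the iterates are in the class. -/
lemma quotient_iterKer (hP : IsColimitClass P) [Finite Y] (ψ : Γ →* Wr Γ Y) (hΓ : P Γ) (n : ℕ) :
    haveI := iterKer_normal ψ n
    P (Γ ⧸ iterKer ψ n) := by
  induction n with
  | zero =>
    have hn := iterKer_normal ψ 0
    refine hP.of_injective (H := Γ) (QuotientGroup.lift (iterKer ψ 0) (MonoidHom.id Γ)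
      (fun x hx => hx)) ?_ hΓ
    rw [injective_iff_map_eq_one]
    intro x
    induction x using QuotientGroup.induction_on with
    | H z =>
      intro hz
      exact (QuotientGroup.eq_one_iff z).2 hz
  | succ n ih =>
    have hn := iterKer_normal ψ n
    have hn' := iterKer_normal ψ (n + 1)
    let f : Γ →* Wr (Γ ⧸ iterKer ψ n) Y := (Wr.map (QuotientGroup.mk' (iterKer ψ n))).comp ψ
    have hf : ∀ g, f g = 1 ↔ g ∈ iterKer ψ (n + 1) := by
      intro g
      rw [mem_iterKer_succ]
      constructor
      · intro h
        refine ⟨congrArg Wr.perm h, fun y => ?_⟩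
        have := congrFun (congrArg Wr.fn h) y
        exact (QuotientGroup.eq_one_iff _).1 this
      · rintro ⟨h1, h2⟩
        refine Wr.ext h1 (funext fun y => ?_)
        exact (QuotientGroup.eq_one_iff _).2 (h2 y)
    refine hP.of_injective (QuotientGroup.lift (iterKer ψ (n + 1)) f
      (fun x hx => (hf x).2 hx)) ?_ (hP.wr ih)
    rw [injective_iff_map_eq_one]
    intro x
    induction x using QuotientGroup.induction_on with
    | H z =>
      intro hz
      exact (QuotientGroup.eq_one_iff z).2 ((hf z).1 hz)

/-- If all elements acting trivially die in an iterate of the recursion, the group of tree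
automorphisms defined by the recursion is in the class. -/
theorem range_act_mem (hP : IsColimitClass P) [Finite Y] (ψ : Γ →* Wr Γ Y) (hΓ : P Γ)
    (h : ∀ g, act ψ g = 1 → ∃ n, ∀ v : List Y, v.length = n → scw ψ v g = 1) :
    P (act ψ).range := by
  refine hP.of_iUnion (iterKer ψ) (iterKer_normal ψ) (iterKer_mono ψ)
    (quotient_iterKer hP ψ hΓ) (act ψ).rangeRestrict (act ψ).rangeRestrict_surjective ?_
  intro g
  constructor
  · intro hg
    have hg' : act ψ g = 1 := congrArg Subtype.val hg
    obtain ⟨n, hn⟩ := h g hg'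
    exact ⟨n, mem_iterKer_of hg' hn⟩
  · rintro ⟨n, hn⟩
    exact Subtype.ext (act_of_mem_iterKer hn)

lemma secClosed_range_act (ψ : Γ →* Wr Γ Y) : SecClosed (act ψ).range := by
  rintro _ ⟨g, rfl⟩ y
  exact ⟨(ψ g).fn y, (sec_act ψ g y).symm⟩

/-- The group of all tree automorphisms whose deep sections lie in a group in the class is in the
class. -/
theorem evIn_mem (hP : IsColimitClass P) [Finite Y] {A : Subgroup (TreeAut Y)}
    (hPA : P A) : P (evIn A) := by
  let K : ℕ → Subgroup (evIn A) := fun n =>
    { carrier := {g | ∀ v : List Y, n ≤ v.length → g.1.sec v ∈ A}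
      one_mem' := fun v _ => by
        rw [OneMemClass.coe_one, sec_one]
        exact A.one_mem
      mul_mem' := fun {a b} ha hb v hv => by
        rw [Subgroup.coe_mul, sec_mul]
        exact A.mul_mem (ha _ (by rw [length_apply]; exact hv)) (hb _ hv)
      inv_mem' := fun {a} ha v hv => by
        rw [Subgroup.coe_inv, sec_inv]
        exact A.inv_mem (ha _ (by rw [length_apply]; exact hv)) }
  refine hP.of_union K ?_ (fun n => ?_) ?_
  · intro i j hij g hg v hv
    exact hg v (hij.trans hv)
  · -- embed `K n` into the wreath product of `A` with the symmetric group of `Y^n`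
    have hsec : ∀ (g : K n) (v : List.Vector Y n), g.1.1.sec v.1 ∈ A := fun g v =>
      g.2 v.1 v.2.ge
    let F : K n →* Wr A (List.Vector Y n) :=
      { toFun := fun g => ⟨levelPerm n g.1.1, fun v => ⟨g.1.1.sec v.1, hsec g v⟩⟩
        map_one' := by
          apply Wr.ext
          · rfl
          · funext v
            apply Subtype.ext
            exact sec_one _
        map_mul' := fun a b => by
          apply Wr.ext
          · rfl
          · funext v
            apply Subtype.ext
            exact sec_mul a.1.1 b.1.1 v.1 }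
    have : Finite (List.Vector Y n) := by
      have := Fintype.ofFinite Y
      infer_instance
    refine hP.of_injective F ?_ (hP.wr hPA)
    intro a b hab
    apply Subtype.ext
    apply Subtype.ext
    refine ext_fun fun w => ?_
    have h1 : ∀ v : List Y, v.length = n → a.1.1 v = b.1.1 v := by
      intro v hv
      have := congrArg (fun σ => (σ ⟨v, hv⟩ : List.Vector Y n).1) (congrArg Wr.perm hab)
      exact this
    have h2 : ∀ v : List Y, v.length = n → a.1.1.sec v = b.1.1.sec v := by
      intro v hv
      have := congrArg Subtype.val (congrFun (congrArg Wr.fn hab) ⟨v, hv⟩)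
      exact this
    by_cases hw : n ≤ w.length
    · rw [← List.take_append_drop n w, apply_append, apply_append, h1 _ (by simp [hw]),
        h2 _ (by simp [hw])]
    · cases w with
      | nil => rw [apply_nil, apply_nil]
      | cons y w =>
        -- extend the word to length `n`
        have hlen : ((y :: w) ++ List.replicate (n - (y :: w).length) y).length = n := by
          rw [List.length_append, List.length_replicate]
          omega
        have h3 := h1 _ hlen
        rw [apply_append, apply_append] at h3
        exact List.append_inj_left h3 (by rw [length_apply, length_apply])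
  · rintro ⟨g, n, hn⟩
    exact ⟨n, hn⟩

/-- For a contracting recursion without torsion in the kernel of the action every element of the
kernel of the action dies in an iterate of the recursion. -/
theorem eventually_one_of_contracting {ψ : Γ →* Wr Γ Y} {N : Set Γ} (hN : Contracting ψ N)
    (htf : ∀ g, act ψ g = 1 → IsOfFinOrder g → g = 1) (g : Γ) (hg : act ψ g = 1) :
    ∃ n, ∀ v : List Y, v.length = n → scw ψ v g = 1 := by
  classical
  obtain ⟨hfin, hcon⟩ := hN
  choose f hf using fun k : ℕ => hcon (g ^ k)
  refine ⟨(Finset.range (hfin.toFinset.card + 1)).sup f, fun v hv => ?_⟩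
  apply htf
  · rw [act_scw, hg, sec_one]
  · have hmem : ∀ k ∈ Finset.range (hfin.toFinset.card + 1), scw ψ v g ^ k ∈ hfin.toFinset := by
      intro k hk
      rw [Set.Finite.mem_toFinset, ← scw_pow_of_act_eq_one ψ v hg]
      apply hf
      rw [hv]
      exact Finset.le_sup hk
    obtain ⟨a, -, b, -, hab, hpow⟩ := Finset.exists_ne_map_eq_of_card_lt_of_maps_to
      (by rw [Finset.card_range]; omega) hmem
    rw [isOfFinOrder_iff_pow_eq_one]
    have key : ∀ a b : ℕ, a < b → scw ψ v g ^ a = scw ψ v g ^ b →
        ∃ n, 0 < n ∧ scw ψ v g ^ n = 1 := by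
      intro a b hlt h
      refine ⟨b - a, by omega, ?_⟩
      have h2 : scw ψ v g ^ b = scw ψ v g ^ a * scw ψ v g ^ (b - a) := by
        rw [← pow_add]
        congr 1
        omega
      rw [← h] at h2
      exact (left_eq_mul.1 h2)
    rcases lt_or_gt_of_ne hab with h | h
    · exact key a b h hpow
    · exact key b a h hpow.symm

end Kernels

end Pool.Agent.MP98022b
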