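import Pool.Agent.Lib.MP_98022b_h30.Block

/-!
# Groups of finite-state automorphisms of polynomial activity embed into the tower
-/

namespace Pool.Agent.MP98022b

open TreeAut

variable {X : Type*}

lemma sec_flatten_replicate {q : TreeAut X} {u : List X} (h : q.sec u = q) (j : ℕ) :
    q.sec (List.replicate j u).flatten = q := by
  induction j with
  | zero => simp
  | succ j ih => rw [List.replicate_succ, List.flatten_cons, sec_append, h, ih]

/-- The sections of a section. -/
lemma range_sec_subset (q : TreeAut X) (v : List X) : Set.range (q.sec v).sec ⊆ Set.range q.sec := by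
  rintro _ ⟨w, rfl⟩
  exact ⟨v ++ w, sec_append _ _ _⟩

/-- Dichotomy for the sections at a level which is a multiple of all return times. -/
lemma section_dichotomy [Finite X] {q : TreeAut X} (hq : FiniteState q) (hpq : PolyActive q)
    (hq1 : q ≠ 1) {m : ℕ} (hm : 1 ≤ m)
    (hret : (∃ u, u ≠ [] ∧ q.sec u = q) → ∃ p : List X, p.length = m ∧ q.sec p = q)
    {v : List X} (hv : v.length = m) :
    q.sec v = q ∨ (Set.range (q.sec v).sec).ncard < (Set.range q.sec).ncard := by
  by_cases h : q ∈ Set.range (q.sec v).sec
  · left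
    obtain ⟨w, hw⟩ := h
    rw [← sec_append] at hw
    have hne : v ++ w ≠ [] := by
      intro h0
      have : (v ++ w).length = 0 := by rw [h0]; rfl
      rw [List.length_append, hv] at this
      omega
    obtain ⟨p, hp1, hp2⟩ := hret ⟨_, hne, hw⟩
    have hp0 : (v ++ w).length ≠ 0 := by
      rw [Ne, List.length_eq_zero_iff]; exact hne
    have h1 := sec_flatten_replicate hw m
    have h2 := sec_flatten_replicate hp2 (v ++ w).length
    have h3 : (List.replicate m (v ++ w)).flatten = (List.replicate (v ++ w).length p).flatten := by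
      apply hpq.unique_return hq1 _ h1 h2
      rw [List.length_flatten, List.length_flatten, List.map_replicate, List.map_replicate,
        List.sum_replicate, List.sum_replicate, hp1, smul_eq_mul, smul_eq_mul, mul_comm]
    obtain ⟨m', rfl⟩ := Nat.exists_eq_add_of_le' hm
    obtain ⟨l', hl'⟩ := Nat.exists_eq_succ_of_ne_zero hp0
    rw [hl', List.replicate_succ, List.replicate_succ, List.flatten_cons, List.flatten_cons,
      List.append_assoc] at h3
    have h4 : v = p := List.append_inj_left h3 (by rw [hv, hp1])
    rw [h4, hp2]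
  · right
    refine Set.ncard_lt_ncard ?_ hq
    refine ⟨range_sec_subset q v, fun h1 => h (h1 ⟨[], sec_nil q⟩)⟩

/-- The main induction: every section is straightened into the tower. -/
lemma straighten_block_mem [Finite X] {m : ℕ} (hm : 1 ≤ m) [DecidableEq (List.Vector X m)]
    (y₀ : List.Vector X m) (N : ℕ) :
    ∀ q : TreeAut X, FiniteState q → PolyActive q →
      (∀ r ∈ Set.range q.sec, (∃ u, u ≠ [] ∧ r.sec u = r) →
        ∃ p : List X, p.length = m ∧ r.sec p = r) →
      (Set.range q.sec).ncard ≤ N →
      ∃ k, straighten y₀ (block X m q) ∈ tower y₀ k := by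
  induction N with
  | zero =>
    intro q hq _ _ h0
    exfalso
    have h1 : (Set.range q.sec).ncard = 0 := Nat.le_zero.1 h0
    rw [Set.ncard_eq_zero hq] at h1
    have : q ∈ Set.range q.sec := ⟨[], sec_nil q⟩
    rw [h1] at this
    exact this
  | succ N ih =>
    intro q hq hpq hret hcard
    by_cases hq1 : q = 1
    · refine ⟨0, ?_⟩
      rw [hq1, map_one, straighten_one]
      exact Subgroup.one_mem _
    have hsmall : ∀ v : List.Vector X m, q.sec v.1 = q ∨
        ∃ k, straighten y₀ (block X m (q.sec v.1)) ∈ tower y₀ k := by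
      intro v
      rcases section_dichotomy hq hpq hq1 hm (hret q ⟨[], sec_nil q⟩) v.2 with h | h
      · exact Or.inl h
      · right
        refine ih _ (hq.sec _) (hpq.sec _) (fun r hr => hret r (range_sec_subset q _ hr)) ?_
        omega
    -- choose a common level
    have hK : ∃ K, ∀ v : List.Vector X m, q.sec v.1 = q ∨
        straighten y₀ (block X m (q.sec v.1)) ∈ tower y₀ K := by
      have := Fintype.ofFinite (List.Vector X m)
      have hsmall' : ∀ v : List.Vector X m, ∃ k, q.sec v.1 = q ∨
          straighten y₀ (block X m (q.sec v.1)) ∈ tower y₀ k := by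
        intro v
        rcases hsmall v with h | ⟨k, h⟩
        · exact ⟨0, Or.inl h⟩
        · exact ⟨k, Or.inr h⟩
      choose f hf using hsmall'
      refine ⟨Finset.univ.sup f, fun v => ?_⟩
      rcases hf v with h | h
      · exact Or.inl h
      · exact Or.inr (tower_mono y₀ (Finset.le_sup (Finset.mem_univ v)) h)
    obtain ⟨K, hK⟩ := hK
    by_cases hp : ∃ p : List.Vector X m, q.sec p.1 = q
    · obtain ⟨p, hp⟩ := hp
      refine ⟨K + 1, straighten_mem_tower_succ y₀ K (p := p) ?_ fun z hz => ?_⟩
      · rw [sec_block, hp]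
      · rw [sec_block]
        rcases hK z with h | h
        · exfalso
          apply hz
          apply Subtype.ext
          exact hpq.unique_return hq1 (by rw [z.2, p.2]) h hp
        · exact h
    · push Not at hp
      refine ⟨K, straighten_mem_tower y₀ K fun z => ?_⟩
      rw [sec_block]
      rcases hK z with h | h
      · exact absurd h (hp z)
      · exact h

/-- For finitely many finite-state automorphisms of polynomial activity there is a block length
`m` such that their straightened block versions lie in one group of the tower. -/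
theorem exists_straighten [Finite X] (S : Finset (TreeAut X))
    (hS : ∀ s ∈ S, s ∈ polyAut X) :
    ∃ m, 1 ≤ m ∧ ∀ [DecidableEq (List.Vector X m)] (y₀ : List.Vector X m),
      ∃ k, ∀ s ∈ S, straighten y₀ (block X m s) ∈ tower y₀ k := by
  classical
  have hfin : (⋃ s ∈ S, Set.range (sec s)).Finite :=
    S.finite_toSet.biUnion fun s hs => (hS s hs).1
  set Q : Finset (TreeAut X) := hfin.toFinset with hQ
  have hlen : ∀ q : TreeAut X, ∃ l : ℕ, 1 ≤ l ∧ ((∃ u, u ≠ [] ∧ q.sec u = q) →
      ∃ u, u.length = l ∧ q.sec u = q) := by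
    intro q
    by_cases h : ∃ u, u ≠ [] ∧ q.sec u = q
    · obtain ⟨u, hu, huq⟩ := h
      refine ⟨u.length, ?_, fun _ => ⟨u, rfl, huq⟩⟩
      rw [Nat.one_le_iff_ne_zero, Ne, List.length_eq_zero_iff]
      exact hu
    · exact ⟨1, le_rfl, fun h' => absurd h' h⟩
  choose l hl1 hl2 using hlen
  refine ⟨∏ q ∈ Q, l q, Finset.one_le_prod' fun q _ => hl1 q, fun {_} y₀ => ?_⟩
  have hm : 1 ≤ ∏ q ∈ Q, l q := Finset.one_le_prod' fun q _ => hl1 q
  have hret : ∀ q ∈ Q, (∃ u, u ≠ [] ∧ q.sec u = q) →
      ∃ p : List X, p.length = ∏ q ∈ Q, l q ∧ q.sec p = q := by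
    intro q hq hu
    obtain ⟨u, hul, huq⟩ := hl2 q hu
    obtain ⟨c, hc⟩ := Finset.dvd_prod_of_mem l hq
    refine ⟨(List.replicate c u).flatten, ?_, sec_flatten_replicate huq c⟩
    rw [List.length_flatten, List.map_replicate, List.sum_replicate, hul, smul_eq_mul, hc,
      mul_comm]
  have hk : ∀ s : TreeAut X, ∃ k, s ∈ S →
      straighten y₀ (block X _ s) ∈ tower y₀ k := by
    intro s
    by_cases hs : s ∈ S
    · obtain ⟨k, hk⟩ := straighten_block_mem hm y₀ _ s (hS s hs).1 (hS s hs).2 (fun r hr =>
        hret r (by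
          rw [hQ, Set.Finite.mem_toFinset]
          exact Set.mem_biUnion hs hr)) le_rfl
      exact ⟨k, fun _ => hk⟩
    · exact ⟨0, fun h => absurd h hs⟩
  choose f hf using hk
  exact ⟨S.sup f, fun s hs => tower_mono y₀ (Finset.le_sup hs) (hf s hs)⟩

end Pool.Agent.MP98022b
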