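import Pool.Agent.Lib.MP_98022b_h30.Embed
import Pool.Agent.Lib.MP_98022b_h71.Stab

/-!
# Groups of finite-state automorphisms of polynomial activity belong to every class of groups with
the inheritance properties of the Farrell-Jones conjecture
-/

namespace Pool.Agent.MP98022b

open TreeAut

/-! ### The automorphism group of the tree as a self-similar group -/

section

variable (Y : Type)

/-- The recursion `Aut(Y^*) → Aut(Y^*) ≀ Sym(Y)`. -/
def treeRec : TreeAut Y →* FJ.Wr (TreeAut Y) Y where
  toFun g := ⟨g.root, fun y => g.sec [y]⟩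
  map_one' := by
    apply FJ.Wr.ext
    · exact root_one
    · funext y
      exact sec_one [y]
  map_mul' g h := by
    apply FJ.Wr.ext
    · exact root_mul g h
    · funext y
      show (g * h).sec [y] = _
      rw [sec_mul, apply_singleton]
      rfl

/-- The automorphism group of the tree with its bijective recursion. -/
def treeSS : FJ.TreeSS Y (TreeAut Y) where
  ψ := treeRec Y
  bij := by
    constructor
    · intro g h hgh
      refine ext_root (congrArg FJ.Wr.perm hgh) fun y => ?_
      exact congrFun (congrArg FJ.Wr.s hgh) y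
    · rintro ⟨π, s⟩
      refine ⟨mk' π s, FJ.Wr.ext (root_mk' π s) (funext fun y => sec_mk' π s y)⟩

variable {Y}

lemma treeSS_perm (g : TreeAut Y) : (treeSS Y).perm g = g.root := rfl

lemma treeSS_sec (g : TreeAut Y) (y : Y) : (treeSS Y).sec g y = g.sec [y] := rfl

lemma treeSS_act (g : TreeAut Y) (v : List Y) : (treeSS Y).act g v = g v := by
  induction v generalizing g with
  | nil => rw [FJ.SS.act_nil, apply_nil]
  | cons y v ih => rw [FJ.SS.act_cons, ih, apply_cons]; rfl

lemma treeSS_secL (g : TreeAut Y) (v : List Y) : (treeSS Y).secL g v = g.sec v := by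
  induction v generalizing g with
  | nil => rw [FJ.SS.secL_nil, sec_nil]
  | cons y v ih => rw [FJ.SS.secL_cons, ih, sec_cons]; rfl

lemma LL_eq_evIn (G : Subgroup (TreeAut Y)) : FJ.LL (treeSS Y) G = evIn G := by
  ext g
  show (∃ n : ℕ, ∀ v : List Y, n ≤ v.length → (treeSS Y).secL g v ∈ G) ↔ _
  simp only [treeSS_secL]
  exact Iff.rfl

lemma BB_eq_fixB (y₀ : Y) (G : Subgroup (TreeAut Y)) :
    FJ.BB (treeSS Y) y₀ G = fixB G y₀ := rfl

lemma Nseq_eq_tower (y₀ : Y) (k : ℕ) : FJ.Nseq (treeSS Y) y₀ k = tower y₀ k := by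
  induction k with
  | zero => exact LL_eq_evIn ⊥
  | succ k ih =>
    rw [FJ.Nseq, LL_eq_evIn, BB_eq_fixB, ih]
    rfl

/-! ### Construction of directed automorphisms -/

/-- The automorphism `b` with first-level permutation `π` fixing `y₀`, section `b` at `y₀` and
sections `s y` at the other letters, as a function. -/
def dirFun [DecidableEq Y] (y₀ : Y) (π : Equiv.Perm Y) (s : Y → TreeAut Y) : List Y → List Y
  | [] => []
  | y :: w => if y = y₀ then y₀ :: dirFun y₀ π s w else π y :: s y w

lemma dirFun_cons_self [DecidableEq Y] (y₀ : Y) (π : Equiv.Perm Y) (s : Y → TreeAut Y)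
    (w : List Y) : dirFun y₀ π s (y₀ :: w) = y₀ :: dirFun y₀ π s w := by
  simp [dirFun]

lemma dirFun_cons_ne [DecidableEq Y] (y₀ : Y) (π : Equiv.Perm Y) (s : Y → TreeAut Y)
    {y : Y} (hy : y ≠ y₀) (w : List Y) : dirFun y₀ π s (y :: w) = π y :: s y w := by
  simp [dirFun, hy]

lemma dirFun_dirFun [DecidableEq Y] (y₀ : Y) (π : Equiv.Perm Y) (hπ : π y₀ = y₀)
    (s : Y → TreeAut Y) (w : List Y) :
    dirFun y₀ π⁻¹ (fun y => (s (π⁻¹ y))⁻¹) (dirFun y₀ π s w) = w := by
  induction w with
  | nil => rfl
  | cons y w ih =>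
    by_cases hy : y = y₀
    · subst hy
      rw [dirFun_cons_self, dirFun_cons_self, ih]
    · have h1 : π y ≠ y₀ := fun h => hy (π.injective (h.trans hπ.symm))
      rw [dirFun_cons_ne _ _ _ hy, dirFun_cons_ne _ _ _ h1]
      simp

lemma length_dirFun [DecidableEq Y] (y₀ : Y) (π : Equiv.Perm Y) (s : Y → TreeAut Y)
    (w : List Y) : (dirFun y₀ π s w).length = w.length := by
  induction w with
  | nil => rfl
  | cons y w ih =>
    by_cases hy : y = y₀
    · subst hy
      rw [dirFun_cons_self, List.length_cons, ih, List.length_cons]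
    · rw [dirFun_cons_ne _ _ _ hy, List.length_cons, length_apply, List.length_cons]

lemma prefix_dirFun [DecidableEq Y] (y₀ : Y) (π : Equiv.Perm Y) (s : Y → TreeAut Y)
    (u w : List Y) : dirFun y₀ π s u <+: dirFun y₀ π s (u ++ w) := by
  induction u with
  | nil => exact List.nil_prefix
  | cons y u ih =>
    by_cases hy : y = y₀
    · subst hy
      rw [List.cons_append, dirFun_cons_self, dirFun_cons_self, List.prefix_cons_inj]
      exact ih
    · rw [List.cons_append, dirFun_cons_ne _ _ _ hy, dirFun_cons_ne _ _ _ hy,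
        List.prefix_cons_inj]
      exact prefix_apply _ _ _

/-- The directed automorphism with given permutation and sections. -/
def dirAut [DecidableEq Y] (y₀ : Y) (π : Equiv.Perm Y) (hπ : π y₀ = y₀)
    (s : Y → TreeAut Y) : TreeAut Y :=
  ⟨{ toFun := dirFun y₀ π s
     invFun := dirFun y₀ π⁻¹ (fun y => (s (π⁻¹ y))⁻¹)
     left_inv := dirFun_dirFun y₀ π hπ s
     right_inv := fun w => by
       have hπ' : π⁻¹ y₀ = y₀ := by rw [Equiv.Perm.inv_eq_iff_eq, hπ]
       have h := dirFun_dirFun y₀ π⁻¹ hπ' (fun y => (s (π⁻¹ y))⁻¹) w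
       have h2 : (fun y => ((s (π⁻¹ ((π⁻¹)⁻¹ y)))⁻¹)⁻¹) = s := by
         funext y
         rw [inv_inv, inv_inv]
         congr 1
         exact π.symm_apply_apply y
       rw [inv_inv] at h
       convert h using 2
       simp },
   ⟨length_dirFun y₀ π s, prefix_dirFun y₀ π s⟩⟩

lemma dirMk (y₀ : Y) (π : Equiv.Perm Y) (s : Y → TreeAut Y) (hπ : π y₀ = y₀) :
    ∃ b, (treeSS Y).perm b = π ∧ (treeSS Y).sec b y₀ = b ∧
      ∀ y, y ≠ y₀ → (treeSS Y).sec b y = s y := by
  classical
  refine ⟨dirAut y₀ π hπ s, ?_, ?_, ?_⟩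
  · ext y
    have h := apply_singleton (dirAut y₀ π hπ s) y
    by_cases hy : y = y₀
    · subst hy
      have h2 : dirAut y π hπ s [y] = [y] := dirFun_cons_self y π s []
      rw [h2] at h
      rw [treeSS_perm, ← (List.cons.inj h).1, hπ]
    · have h2 : dirAut y₀ π hπ s [y] = [π y] := by
        have h3 : dirFun y₀ π s [y] = π y :: s y [] := dirFun_cons_ne y₀ π s hy []
        rw [apply_nil] at h3
        exact h3
      rw [h2] at h
      rw [treeSS_perm, ← (List.cons.inj h).1]
  · refine ext_fun fun w => ?_
    have h := apply_cons (dirAut y₀ π hπ s) y₀ w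
    have h2 : dirAut y₀ π hπ s (y₀ :: w) = y₀ :: dirAut y₀ π hπ s w := dirFun_cons_self y₀ π s w
    rw [h2] at h
    exact (List.cons.inj h).2.symm
  · intro y hy
    refine ext_fun fun w => ?_
    have h := apply_cons (dirAut y₀ π hπ s) y w
    have h2 : dirAut y₀ π hπ s (y :: w) = π y :: s y w := dirFun_cons_ne y₀ π s hy w
    rw [h2] at h
    exact (List.cons.inj h).2.symm

end

/-! ### The tower and the groups of polynomial activity are in the class -/

section

variable {P : ∀ (G : Type) [Group G], Prop}

theorem tower_mem (hP : FJ.IsFJClass P) {Y : Type} [Finite Y] (y₀ : Y) (k : ℕ) :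
    P (tower y₀ k) := by
  rw [← Nseq_eq_tower]
  refine FJ.Nseq_mem hP (fun g h hgh => ext_fun fun w => ?_) (dirMk y₀) k
  rw [← treeSS_act, ← treeSS_act, hgh]

/-- The group of finite-state automorphisms of polynomial activity of a tree over a finite
alphabet is in every class with the inheritance properties of the Farrell-Jones conjecture. -/
theorem polyAut_mem (hP : FJ.IsFJClass P) (X : Type) [Finite X] : P (polyAut X) := by
  classical
  refine hP.locally fun S => ?_
  obtain ⟨m, hm, hS⟩ := exists_straighten (S.image Subtype.val) (by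
    intro s hs
    obtain ⟨s', _, rfl⟩ := Finset.mem_image.1 hs
    exact s'.2)
  refine ⟨Subgroup.closure (S : Set (polyAut X)), fun x hx => Subgroup.subset_closure hx, ?_⟩
  by_cases hX : Nonempty X
  · obtain ⟨x₀⟩ := hX
    let y₀ : List.Vector X m := List.Vector.replicate m x₀
    obtain ⟨k, hk⟩ := hS y₀
    -- the embedding
    let F : polyAut X →* TreeAut (List.Vector X m) :=
      ((MulAut.conj (delta y₀)).toMonoidHom.comp (block X m)).comp (polyAut X).subtype
    have hF : ∀ x ∈ Subgroup.closure (S : Set (polyAut X)), F x ∈ tower y₀ k := by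
      intro x hx
      have h1 : Subgroup.closure (S : Set (polyAut X)) ≤ (tower y₀ k).comap F := by
        rw [Subgroup.closure_le]
        intro s hs
        exact hk s.1 (Finset.mem_image_of_mem _ hs)
      exact h1 hx
    have hinj : Function.Injective F := by
      intro x y hxy
      apply Subtype.ext
      apply block_injective hm
      exact (MulAut.conj (delta y₀)).injective hxy
    refine hP.of_injective ((F.comp (Subgroup.subtype _)).codRestrict (tower y₀ k)
      (fun x => hF x.1 x.2)) ?_ (tower_mem hP y₀ k)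
    intro x y hxy
    apply Subtype.ext
    apply hinj
    exact congrArg Subtype.val hxy
  · rw [not_nonempty_iff] at hX
    have : Subsingleton (polyAut X) := by
      constructor
      intro a b
      apply Subtype.ext
      refine ext_fun fun w => ?_
      cases w with
      | nil => rw [apply_nil, apply_nil]
      | cons x w => exact (hX.false x).elim
    exact hP.of_subsingleton

end

end Pool.Agent.MP98022b
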