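import Pool.Agent.Lib.MP_98022b_h30.Step

/-!
# Finite-state automorphisms of polynomial activity and their embedding into the tower
-/

namespace Pool.Agent.MP98022b

open TreeAut

/-! ### Finite-state automorphisms of polynomial activity -/

section Activity

variable {X : Type*}

/-- An automorphism is finite-state if it has only finitely many different sections. -/
def FiniteState (g : TreeAut X) : Prop := (Set.range g.sec).Finite

/-- The activity: the number of words of length `n` at which the section is not trivial. -/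
noncomputable def activity (g : TreeAut X) (n : ℕ) : ℕ :=
  Set.ncard {v : List X | v.length = n ∧ g.sec v ≠ 1}

/-- Polynomial growth of the activity. -/
def PolyActive (g : TreeAut X) : Prop :=
  ∃ C k : ℕ, ∀ n, activity g n ≤ C * (n + 1) ^ k

lemma finite_words [Finite X] (n : ℕ) : {v : List X | v.length = n}.Finite :=
  List.finite_length_eq X n

lemma finite_active [Finite X] (g : TreeAut X) (n : ℕ) :
    {v : List X | v.length = n ∧ g.sec v ≠ 1}.Finite :=
  (finite_words n).subset fun _ h => h.1

lemma activity_one (n : ℕ) : activity (1 : TreeAut X) n = 0 := by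
  simp [activity]

lemma activity_mul_le [Finite X] (g h : TreeAut X) (n : ℕ) :
    activity (g * h) n ≤ activity g n + activity h n := by
  classical
  have h1 : {v : List X | v.length = n ∧ (g * h).sec v ≠ 1} ⊆
      (h⁻¹).1 '' {v : List X | v.length = n ∧ g.sec v ≠ 1} ∪
        {v : List X | v.length = n ∧ h.sec v ≠ 1} := by
    rintro v ⟨hv, hne⟩
    by_cases h2 : h.sec v = 1
    · left
      refine ⟨h v, ⟨by rw [length_apply, hv], fun h3 => hne ?_⟩, inv_apply_self h v⟩
      rw [sec_mul, h2, h3, one_mul]
    · right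
      exact ⟨hv, h2⟩
  refine (Set.ncard_le_ncard h1 (((finite_active g n).image _).union (finite_active h n))).trans ?_
  refine (Set.ncard_union_le _ _).trans ?_
  exact Nat.add_le_add_right (Set.ncard_image_le (finite_active g n)) _

lemma activity_inv [Finite X] (g : TreeAut X) (n : ℕ) : activity g⁻¹ n ≤ activity g n := by
  have h1 : {v : List X | v.length = n ∧ g⁻¹.sec v ≠ 1} ⊆
      g.1 '' {v : List X | v.length = n ∧ g.sec v ≠ 1} := by
    rintro v ⟨hv, hne⟩
    refine ⟨g⁻¹ v, ⟨by rw [length_apply, hv], fun h3 => hne ?_⟩, apply_inv_self g v⟩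
    rw [sec_inv, h3, inv_one]
  exact (Set.ncard_le_ncard h1 ((finite_active g n).image _)).trans
    (Set.ncard_image_le (finite_active g n))

lemma activity_sec_le [Finite X] (g : TreeAut X) (u : List X) (n : ℕ) :
    activity (g.sec u) n ≤ activity g (u.length + n) := by
  have h1 : (fun v => u ++ v) '' {v : List X | v.length = n ∧ (g.sec u).sec v ≠ 1} ⊆
      {v : List X | v.length = u.length + n ∧ g.sec v ≠ 1} := by
    rintro _ ⟨v, ⟨hv, hne⟩, rfl⟩
    refine ⟨by simp [hv], ?_⟩
    rwa [sec_append]
  rw [activity, ← Set.ncard_image_of_injective _ (List.append_right_injective u)]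
  exact Set.ncard_le_ncard h1 (finite_active g _)

lemma finiteState_one : FiniteState (1 : TreeAut X) := by
  have : Set.range (1 : TreeAut X).sec ⊆ {1} := by
    rintro _ ⟨v, rfl⟩
    simp
  exact (Set.finite_singleton _).subset this

lemma FiniteState.mul {g h : TreeAut X} (hg : FiniteState g) (hh : FiniteState h) :
    FiniteState (g * h) := by
  refine (Set.Finite.mul hg hh).subset ?_
  rintro _ ⟨v, rfl⟩
  rw [sec_mul]
  exact Set.mul_mem_mul ⟨_, rfl⟩ ⟨_, rfl⟩

lemma FiniteState.inv {g : TreeAut X} (hg : FiniteState g) : FiniteState g⁻¹ := by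
  refine (Set.Finite.inv hg).subset ?_
  rintro _ ⟨v, rfl⟩
  rw [sec_inv]
  exact Set.inv_mem_inv.2 ⟨_, rfl⟩

lemma FiniteState.sec {g : TreeAut X} (hg : FiniteState g) (u : List X) :
    FiniteState (g.sec u) := by
  refine hg.subset ?_
  rintro _ ⟨v, rfl⟩
  exact ⟨u ++ v, sec_append _ _ _⟩

lemma PolyActive.mul [Finite X] {g h : TreeAut X} (hg : PolyActive g) (hh : PolyActive h) :
    PolyActive (g * h) := by
  obtain ⟨C, k, hC⟩ := hg
  obtain ⟨D, l, hD⟩ := hh
  refine ⟨C + D, max k l, fun n => (activity_mul_le g h n).trans ?_⟩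
  rw [add_mul]
  have h1 : 1 ≤ n + 1 := by omega
  exact add_le_add
    ((hC n).trans (Nat.mul_le_mul_left _ (Nat.pow_le_pow_right h1 (le_max_left _ _))))
    ((hD n).trans (Nat.mul_le_mul_left _ (Nat.pow_le_pow_right h1 (le_max_right _ _))))

lemma PolyActive.inv [Finite X] {g : TreeAut X} (hg : PolyActive g) : PolyActive g⁻¹ := by
  obtain ⟨C, k, hC⟩ := hg
  exact ⟨C, k, fun n => (activity_inv g n).trans (hC n)⟩

lemma PolyActive.sec [Finite X] {g : TreeAut X} (hg : PolyActive g) (u : List X) :
    PolyActive (g.sec u) := by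
  obtain ⟨C, k, hC⟩ := hg
  refine ⟨C * (u.length + 1) ^ k, k, fun n => (activity_sec_le g u n).trans ((hC _).trans ?_)⟩
  rw [mul_assoc, ← mul_pow]
  refine Nat.mul_le_mul_left _ (Nat.pow_le_pow_left ?_ _)
  nlinarith [Nat.zero_le (u.length * n)]

/-- The group of finite-state automorphisms of polynomial activity of the tree `X^*`. -/
def polyAut (X : Type*) [Finite X] : Subgroup (TreeAut X) where
  carrier := {g | FiniteState g ∧ PolyActive g}
  one_mem' := ⟨finiteState_one, 0, 0, fun n => by rw [activity_one]; exact Nat.zero_le _⟩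
  mul_mem' := fun hg hh => ⟨hg.1.mul hh.1, hg.2.mul hh.2⟩
  inv_mem' := fun hg => ⟨hg.1.inv, hg.2.inv⟩

lemma mem_polyAut [Finite X] {g : TreeAut X} :
    g ∈ polyAut X ↔ FiniteState g ∧ PolyActive g := Iff.rfl

/-! ### Uniqueness of the returning word -/

/-- The word read along a list of choices between two words. -/
def choiceWord (u u' : List X) : List Bool → List X
  | [] => []
  | true :: b => u ++ choiceWord u u' b
  | false :: b => u' ++ choiceWord u u' b

lemma length_choiceWord {u u' : List X} (h : u.length = u'.length) (b : List Bool) :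
    (choiceWord u u' b).length = u.length * b.length := by
  induction b with
  | nil => simp [choiceWord]
  | cons c b ih =>
    cases c
    · rw [choiceWord, List.length_append, ih, List.length_cons, ← h]; ring
    · rw [choiceWord, List.length_append, ih, List.length_cons]; ring

lemma sec_choiceWord {g : TreeAut X} {u u' : List X} (h1 : g.sec u = g) (h2 : g.sec u' = g)
    (b : List Bool) : g.sec (choiceWord u u' b) = g := by
  induction b with
  | nil => simp [choiceWord]
  | cons c b ih =>
    cases c
    · rw [choiceWord, sec_append, h2, ih]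
    · rw [choiceWord, sec_append, h1, ih]

lemma choiceWord_injective {u u' : List X} (h : u.length = u'.length) (hne : u ≠ u')
    (b c : List Bool) (hl : b.length = c.length)
    (he : choiceWord u u' b = choiceWord u u' c) : b = c := by
  induction b generalizing c with
  | nil => exact (List.length_eq_zero_iff.1 hl.symm).symm
  | cons x b ih =>
    cases c with
    | nil => simp at hl
    | cons y c =>
      rw [List.length_cons, List.length_cons, Nat.add_right_cancel_iff] at hl
      cases x <;> cases y
      · rw [choiceWord, choiceWord] at he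
        rw [ih c hl (List.append_cancel_left he)]
      · rw [choiceWord, choiceWord] at he
        exact absurd (List.append_inj_left he h.symm).symm hne
      · rw [choiceWord, choiceWord] at he
        exact absurd (List.append_inj_left he h) hne
      · rw [choiceWord, choiceWord] at he
        rw [ih c hl (List.append_cancel_left he)]

lemma exists_pow_lt (C k l : ℕ) : ∃ n : ℕ, C * (l * n + 1) ^ k < 2 ^ n := by
  have h1 : Filter.Tendsto (fun n : ℕ => ((n : ℝ) ^ k / (2 : ℝ) ^ n)) Filter.atTop (nhds 0) :=
    tendsto_pow_const_div_const_pow_of_one_lt k one_lt_two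
  have hpos : (0 : ℝ) < 1 / ((C + 1) * (l + 1) ^ k) := by positivity
  have h2 := (h1.eventually (gt_mem_nhds hpos)).and (Filter.eventually_ge_atTop 1)
  obtain ⟨n, hn, hn1⟩ := h2.exists
  refine ⟨n, ?_⟩
  have h3 : ((n : ℝ) ^ k) * ((C + 1) * (l + 1) ^ k) < 2 ^ n := by
    rw [div_lt_div_iff₀ (by positivity) (by positivity)] at hn
    linarith
  have h4 : ((l * n + 1 : ℕ) : ℝ) ≤ (l + 1) * n := by
    have : (1 : ℝ) ≤ n := by exact_mod_cast hn1
    push_cast
    nlinarith
  have h5 : (C : ℝ) * ((l * n + 1 : ℕ) : ℝ) ^ k ≤ ((n : ℝ) ^ k) * ((C + 1) * (l + 1) ^ k) := by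
    have h6 : ((l * n + 1 : ℕ) : ℝ) ^ k ≤ ((l + 1) * n) ^ k :=
      pow_le_pow_left₀ (by positivity) h4 k
    calc (C : ℝ) * ((l * n + 1 : ℕ) : ℝ) ^ k ≤ (C + 1) * ((l + 1) * n) ^ k := by
          apply mul_le_mul _ h6 (by positivity) (by positivity)
          linarith
      _ = ((n : ℝ) ^ k) * ((C + 1) * (l + 1) ^ k) := by rw [mul_pow]; ring
  have h7 : ((C * (l * n + 1) ^ k : ℕ) : ℝ) < ((2 ^ n : ℕ) : ℝ) := by
    push_cast
    push_cast at h5
    linarith
  exact_mod_cast h7

lemma PolyActive.unique_return [Finite X] {g : TreeAut X} (hg : PolyActive g) (hne : g ≠ 1)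
    {u u' : List X} (hl : u.length = u'.length) (h1 : g.sec u = g) (h2 : g.sec u' = g) :
    u = u' := by
  by_contra hu
  obtain ⟨C, k, hC⟩ := hg
  obtain ⟨n, hn⟩ := exists_pow_lt C k u.length
  have h3 : 2 ^ n ≤ activity g (u.length * n) := by
    have h4 : (choiceWord u u') '' {b : List Bool | b.length = n} ⊆
        {v : List X | v.length = u.length * n ∧ g.sec v ≠ 1} := by
      rintro _ ⟨b, hb, rfl⟩
      refine ⟨?_, ?_⟩
      · rw [length_choiceWord hl, hb]
      · rwa [sec_choiceWord h1 h2]
    have h5 : Set.InjOn (choiceWord u u') {b : List Bool | b.length = n} := by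
      intro b hb c hc hbc
      exact choiceWord_injective hl hu b c (by rw [hb, hc]) hbc
    have h6 : Set.ncard {b : List Bool | b.length = n} = 2 ^ n := by
      have h7 : Nat.card (List.Vector Bool n) = 2 ^ n := by
        rw [Nat.card_eq_fintype_card, card_vector, Fintype.card_bool]
      rw [← h7]
      rfl
    rw [← h6, ← h5.ncard_image]
    exact Set.ncard_le_ncard h4 (finite_active g _)
  exact absurd (h3.trans (hC _)) (not_le.2 hn)

end Activity

end Pool.Agent.MP98022b
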