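import Pool.Agent.Lib.MP_98022b_h30.Wreath

/-!
# One step of the tower: from `L` to the group generated by `L` and the elements directed along
`y₀^∞` with all other sections in `L`
-/

namespace Pool.Agent.MP98022b

open TreeAut

variable {Y : Type*}

/-- A subgroup of tree automorphisms closed under sections. -/
def SecClosed (L : Subgroup (TreeAut Y)) : Prop := ∀ g ∈ L, ∀ y, g.sec [y] ∈ L

lemma SecClosed.sec_mem {L : Subgroup (TreeAut Y)} (hL : SecClosed L) (v : List Y) :
    ∀ g ∈ L, g.sec v ∈ L := by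
  induction v with
  | nil => intro g hg; simpa using hg
  | cons y v ih => intro g hg; rw [sec_cons]; exact ih _ (hL _ hg _)

lemma le_evIn {M : Subgroup (TreeAut Y)} (hM : SecClosed M) : M ≤ evIn M :=
  fun g hg => ⟨0, fun v _ => hM.sec_mem v g hg⟩

lemma evIn_mono {M M' : Subgroup (TreeAut Y)} (h : M ≤ M') : evIn M ≤ evIn M' :=
  fun _ ⟨n, hn⟩ => ⟨n, fun v hv => h (hn v hv)⟩

lemma secClosed_evIn (M : Subgroup (TreeAut Y)) : SecClosed (evIn M) := by
  rintro g ⟨n, hn⟩ y
  refine ⟨n, fun v hv => ?_⟩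
  rw [← sec_cons]
  exact hn _ (by rw [List.length_cons]; omega)

/-- The class of automorphisms with eventually all sections in `M` is closed under passing
from the first level sections to the element. -/
lemma mem_evIn_of_sec {M : Subgroup (TreeAut Y)} [Finite Y] {g : TreeAut Y}
    (h : ∀ y, g.sec [y] ∈ evIn M) : g ∈ evIn M := by
  classical
  have := Fintype.ofFinite Y
  choose n hn using h
  refine ⟨(Finset.univ.sup n) + 1, fun v hv => ?_⟩
  cases v with
  | nil => simp at hv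
  | cons y v =>
    rw [sec_cons]
    apply hn
    have h1 : n y ≤ Finset.univ.sup n := Finset.le_sup (Finset.mem_univ y)
    rw [List.length_cons] at hv
    omega

/-- The group of the automorphisms directed along `y₀^∞` with other sections in `L`:
`t(y₀) = y₀`, `t|_{y₀} = t` and `t|_y ∈ L` for `y ≠ y₀`. -/
def fixB (L : Subgroup (TreeAut Y)) (y₀ : Y) : Subgroup (TreeAut Y) where
  carrier := {t | t.root y₀ = y₀ ∧ t.sec [y₀] = t ∧ ∀ y, y ≠ y₀ → t.sec [y] ∈ L}
  one_mem' := by
    refine ⟨by simp, by simp, fun y _ => ?_⟩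
    rw [sec_one]
    exact L.one_mem
  mul_mem' := by
    rintro t s ⟨ht1, ht2, ht3⟩ ⟨hs1, hs2, hs3⟩
    refine ⟨?_, ?_, fun y hy => ?_⟩
    · rw [root_mul, Equiv.Perm.mul_apply, hs1, ht1]
    · rw [sec_mul, apply_singleton, hs1, ht2, hs2]
    · rw [sec_mul, apply_singleton]
      refine L.mul_mem (ht3 _ fun h => hy ?_) (hs3 _ hy)
      have : s.root y = s.root y₀ := by rw [h, hs1]
      exact s.root.injective this
  inv_mem' := by
    rintro t ⟨ht1, ht2, ht3⟩
    have h1 : t⁻¹.root y₀ = y₀ := by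
      rw [root_inv, Equiv.Perm.inv_eq_iff_eq, ht1]
    refine ⟨h1, ?_, fun y hy => ?_⟩
    · rw [sec_inv, apply_singleton, h1, ht2]
    · rw [sec_inv, apply_singleton]
      refine L.inv_mem (ht3 _ fun h => hy ?_)
      have : t⁻¹.root y = t⁻¹.root y₀ := by rw [h, h1]
      exact t⁻¹.root.injective this

lemma mem_fixB {L : Subgroup (TreeAut Y)} {y₀ : Y} {t : TreeAut Y} :
    t ∈ fixB L y₀ ↔ t.root y₀ = y₀ ∧ t.sec [y₀] = t ∧ ∀ y, y ≠ y₀ → t.sec [y] ∈ L := Iff.rfl

lemma fixB_mono {L L' : Subgroup (TreeAut Y)} (h : L ≤ L') (y₀ : Y) :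
    fixB L y₀ ≤ fixB L' y₀ :=
  fun _ ht => ⟨ht.1, ht.2.1, fun y hy => h (ht.2.2 y hy)⟩

lemma apply_rep_of_sec {t : TreeAut Y} {y₀ : Y} (h1 : t.root y₀ = y₀) (h2 : t.sec [y₀] = t)
    (n : ℕ) : t (rep y₀ n) = rep y₀ n := by
  induction n with
  | zero => simp
  | succ n ih => rw [rep, List.replicate_succ, apply_cons, h1, h2, ih]

lemma sec_rep_of_sec {t : TreeAut Y} {y₀ : Y} (h2 : t.sec [y₀] = t)
    (n : ℕ) : t.sec (rep y₀ n) = t := by
  induction n with
  | zero => simp
  | succ n ih => rw [rep, List.replicate_succ, sec_cons, h2, ih]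

lemma apply_rep_of_mem_fixB {L : Subgroup (TreeAut Y)} {y₀ : Y} {t : TreeAut Y}
    (ht : t ∈ fixB L y₀) (n : ℕ) : t (rep y₀ n) = rep y₀ n :=
  apply_rep_of_sec ht.1 ht.2.1 n

lemma sec_rep_of_mem_fixB {L : Subgroup (TreeAut Y)} {y₀ : Y} {t : TreeAut Y}
    (ht : t ∈ fixB L y₀) (n : ℕ) : t.sec (rep y₀ n) = t :=
  sec_rep_of_sec ht.2.1 n

lemma sec_mem_of_ne_rep {L : Subgroup (TreeAut Y)} (hL : SecClosed L) {y₀ : Y} {t : TreeAut Y}
    (ht : t ∈ fixB L y₀) (v : List Y) (hv : v ≠ rep y₀ v.length) : t.sec v ∈ L := by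
  induction v with
  | nil => exact absurd rfl hv
  | cons y v ih =>
    by_cases hy : y = y₀
    · subst hy
      rw [sec_cons, ht.2.1]
      refine ih fun h => hv ?_
      rw [List.length_cons, rep, List.replicate_succ, ← rep, ← h]
    · rw [sec_cons]
      exact hL.sec_mem v _ (ht.2.2 y hy)

/-- The subgroup generated by `L` and the directed elements. -/
def genB (L : Subgroup (TreeAut Y)) (y₀ : Y) : Subgroup (TreeAut Y) := L ⊔ fixB L y₀

/-- The next group of the tower. -/
def next (L : Subgroup (TreeAut Y)) (y₀ : Y) : Subgroup (TreeAut Y) := evIn (genB L y₀)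

lemma secClosed_genB {L : Subgroup (TreeAut Y)} (hL : SecClosed L) (y₀ : Y) :
    SecClosed (genB L y₀) := by
  intro g hg
  have hcl : genB L y₀ = Subgroup.closure ((L : Set (TreeAut Y)) ∪ fixB L y₀) := by
    rw [Subgroup.closure_union, Subgroup.closure_eq, Subgroup.closure_eq, genB]
  rw [hcl] at hg
  induction hg using Subgroup.closure_induction with
  | mem x hx =>
    intro y
    rcases hx with hx | hx
    · exact Subgroup.mem_sup_left (hL x hx y)
    · by_cases hy : y = y₀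
      · subst hy
        rw [hx.2.1]
        exact Subgroup.mem_sup_right hx
      · exact Subgroup.mem_sup_left (hx.2.2 y hy)
  | one => intro y; rw [sec_one]; exact Subgroup.one_mem _
  | mul x z _ _ hx hz =>
    intro y
    rw [sec_mul, apply_singleton]
    exact Subgroup.mul_mem _ (hx _) (hz _)
  | inv x _ hx =>
    intro y
    rw [sec_inv, apply_singleton]
    exact Subgroup.inv_mem _ (hx _)

lemma le_genB (L : Subgroup (TreeAut Y)) (y₀ : Y) : L ≤ genB L y₀ := le_sup_left

lemma fixB_le_genB (L : Subgroup (TreeAut Y)) (y₀ : Y) : fixB L y₀ ≤ genB L y₀ := le_sup_right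

lemma genB_le_next {L : Subgroup (TreeAut Y)} (hL : SecClosed L) (y₀ : Y) :
    genB L y₀ ≤ next L y₀ := le_evIn (secClosed_genB hL y₀)

lemma le_next {L : Subgroup (TreeAut Y)} (hL : SecClosed L) (y₀ : Y) :
    L ≤ next L y₀ := (le_genB L y₀).trans (genB_le_next hL y₀)

lemma secClosed_next (L : Subgroup (TreeAut Y)) (y₀ : Y) : SecClosed (next L y₀) :=
  secClosed_evIn _

/-- `L` has the stabilisation property: the sections along `y₀^∞` of every element of `L` that
fixes `y₀^∞` are eventually directed. -/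
def Stab (L : Subgroup (TreeAut Y)) (y₀ : Y) : Prop :=
  ∀ g ∈ L, (∀ n, g (rep y₀ n) = rep y₀ n) → ∃ n, g.sec (rep y₀ n) ∈ fixB L y₀

/-- The wreath recursion of a group of tree automorphisms closed under sections. -/
def recOf (L : Subgroup (TreeAut Y)) (hL : SecClosed L) : L →* Wr L Y where
  toFun g := ⟨g.1.root, fun y => ⟨g.1.sec [y], hL g.1 g.2 y⟩⟩
  map_one' := by
    apply Wr.ext
    · exact root_one
    · funext y
      apply Subtype.ext
      exact sec_one [y]
  map_mul' g h := by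
    apply Wr.ext
    · exact root_mul g.1 h.1
    · funext y
      apply Subtype.ext
      show (g.1 * h.1).sec [y] = _
      rw [sec_mul, apply_singleton]
      rfl

@[simp] lemma recOf_perm (L : Subgroup (TreeAut Y)) (hL : SecClosed L) (g : L) :
    (recOf L hL g).perm = g.1.root := rfl

@[simp] lemma recOf_fn (L : Subgroup (TreeAut Y)) (hL : SecClosed L) (g : L) (y : Y) :
    (recOf L hL g).fn y = ⟨g.1.sec [y], hL g.1 g.2 y⟩ := rfl

lemma scw_recOf (L : Subgroup (TreeAut Y)) (hL : SecClosed L) (v : List Y) (g : L) :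
    (scw (recOf L hL) v g).1 = g.1.sec v := by
  induction v generalizing g with
  | nil => simp
  | cons y v ih => rw [scw_cons, ih, sec_cons]; rfl

lemma act_recOf (L : Subgroup (TreeAut Y)) (hL : SecClosed L) :
    act (recOf L hL) = L.subtype := by
  symm
  apply hom_unique
  · intro g; rfl
  · intro g y; rfl

/-- A group `Γ` with a wreath recursion, generated by copies of `L` and of the group of directed
elements which agree on the intersection, with the expected recursion. -/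
structure Model (L : Subgroup (TreeAut Y)) (hL : SecClosed L) (y₀ : Y) (Γ : Type*) [Group Γ] where
  /-- the recursion -/
  ψ : Γ →* Wr Γ Y
  /-- the copy of `L` -/
  iL : L →* Γ
  /-- the copy of the directed elements -/
  iB : fixB L y₀ →* Γ
  agree : ∀ (t : TreeAut Y) (h1 : t ∈ L) (h2 : t ∈ fixB L y₀), iL ⟨t, h1⟩ = iB ⟨t, h2⟩
  ψL_perm : ∀ l, (ψ (iL l)).perm = l.1.root
  ψL_fn : ∀ l y, (ψ (iL l)).fn y = iL ⟨l.1.sec [y], hL l.1 l.2 y⟩
  ψB_perm : ∀ b, (ψ (iB b)).perm = b.1.root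
  ψB_fn_self : ∀ b, (ψ (iB b)).fn y₀ = iB b
  ψB_fn : ∀ b y (hy : y ≠ y₀), (ψ (iB b)).fn y = iL ⟨b.1.sec [y], b.2.2.2 y hy⟩
  gen : Subgroup.closure (Set.range iL ∪ Set.range iB) = ⊤

namespace Model

variable {L : Subgroup (TreeAut Y)} {hL : SecClosed L} {y₀ : Y} {Γ : Type*} [Group Γ]

lemma scw_iL (M : Model L hL y₀ Γ) (v : List Y) (l : L) :
    scw M.ψ v (M.iL l) = M.iL ⟨l.1.sec v, hL.sec_mem v l.1 l.2⟩ := by
  induction v generalizing l with
  | nil => simp
  | cons y v ih =>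
    rw [scw_cons, M.ψL_fn, ih]
    congr 1
    apply Subtype.ext
    exact (sec_cons _ _ _).symm

lemma scw_iB_rep (M : Model L hL y₀ Γ) (n : ℕ) (b : fixB L y₀) :
    scw M.ψ (rep y₀ n) (M.iB b) = M.iB b := by
  induction n with
  | zero => rfl
  | succ n ih => rw [rep, List.replicate_succ, scw_cons, M.ψB_fn_self, ih]

lemma scw_iB_ne (M : Model L hL y₀ Γ) (v : List Y) (b : fixB L y₀)
    (hv : v ≠ rep y₀ v.length) : ∃ l, scw M.ψ v (M.iB b) = M.iL l := by
  induction v with
  | nil => exact absurd rfl hv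
  | cons y v ih =>
    by_cases hy : y = y₀
    · subst hy
      rw [scw_cons, M.ψB_fn_self]
      refine ih fun h => hv ?_
      rw [List.length_cons, rep, List.replicate_succ, ← rep, ← h]
    · rw [scw_cons, M.ψB_fn b y hy, M.scw_iL]
      exact ⟨_, rfl⟩

lemma act_iL (M : Model L hL y₀ Γ) (l : L) : act M.ψ (M.iL l) = l.1 := by
  refine ext_fun fun w => ?_
  induction w generalizing l with
  | nil => simp
  | cons y w ih =>
    rw [apply_cons, root_act, sec_act, M.ψL_perm, M.ψL_fn, ih, apply_cons]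

lemma act_iB (M : Model L hL y₀ Γ) (b : fixB L y₀) : act M.ψ (M.iB b) = b.1 := by
  refine ext_fun fun w => ?_
  induction w with
  | nil => simp
  | cons y w ih =>
    rw [apply_cons, root_act, sec_act, M.ψB_perm]
    by_cases hy : y = y₀
    · subst hy
      rw [M.ψB_fn_self, ih, apply_cons, b.2.2.1]
    · rw [M.ψB_fn b y hy, M.act_iL, apply_cons]

/-- The elements of the form `l b l'`. -/
def Short (M : Model L hL y₀ Γ) (γ : Γ) : Prop :=
  ∃ l b l', γ = M.iL l * M.iB b * M.iL l'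

lemma Short.mul_iL {M : Model L hL y₀ Γ} {γ : Γ} (h : M.Short γ) (l : L) :
    M.Short (γ * M.iL l) := by
  obtain ⟨l₁, b, l₂, rfl⟩ := h
  exact ⟨l₁, b, l₂ * l, by simp only [map_mul, mul_assoc]⟩

lemma short_iL_mul_iB (M : Model L hL y₀ Γ) (l : L) (b : fixB L y₀) :
    M.Short (M.iL l * M.iB b) := ⟨l, b, 1, by simp⟩

/-- A short element acting trivially is trivial. -/
lemma Short.eq_one {M : Model L hL y₀ Γ} {γ : Γ} (h : M.Short γ) (h1 : act M.ψ γ = 1) :
    γ = 1 := by
  obtain ⟨l, b, l', rfl⟩ := h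
  rw [map_mul, map_mul, M.act_iL, M.act_iL, M.act_iB] at h1
  have hb : b.1 = (l.1)⁻¹ * (l'.1)⁻¹ := by
    rw [eq_inv_mul_iff_mul_eq, eq_inv_iff_mul_eq_one]
    exact h1
  have hbL : b.1 ∈ L := by
    rw [hb]
    exact L.mul_mem (L.inv_mem l.2) (L.inv_mem l'.2)
  have h2 : M.iB b = M.iL ⟨b.1, hbL⟩ := (M.agree b.1 hbL b.2).symm
  rw [h2, ← map_mul, ← map_mul]
  have h3 : l * ⟨b.1, hbL⟩ * l' = 1 := Subtype.ext h1
  rw [h3, map_one]

/-- Every element of the model has all its deep enough sections short. -/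
theorem eventually_short (M : Model L hL y₀ Γ) (hst : Stab L y₀) (γ : Γ) :
    ∃ n, ∀ v : List Y, n ≤ v.length → M.Short (scw M.ψ v γ) := by
  have key1 : ∀ (γ : Γ) (l : L), (∃ n, ∀ v : List Y, n ≤ v.length → M.Short (scw M.ψ v γ)) →
      ∃ n, ∀ v : List Y, n ≤ v.length → M.Short (scw M.ψ v (γ * M.iL l)) := by
    rintro γ l ⟨n, hn⟩
    refine ⟨n, fun v hv => ?_⟩
    rw [scw_mul, M.scw_iL]
    exact (hn _ (by rw [length_apply]; exact hv)).mul_iL _
  have key2 : ∀ (γ : Γ) (b : fixB L y₀),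
      (∃ n, ∀ v : List Y, n ≤ v.length → M.Short (scw M.ψ v γ)) →
      ∃ n, ∀ v : List Y, n ≤ v.length → M.Short (scw M.ψ v (γ * M.iB b)) := by
    rintro γ b ⟨n, hn⟩
    obtain ⟨l₁, b₁, l₂, hs⟩ := hn (rep y₀ n) (by simp)
    -- the sections at `y₀^(n+j)` for large `j`
    have key : ∃ j₀, ∀ j, j₀ ≤ j → M.Short (scw M.ψ (rep y₀ (n + j)) γ * M.iB b) := by
      have hsec : ∀ j, scw M.ψ (rep y₀ (n + j)) γ =
          scw M.ψ (act M.ψ (M.iB b₁) (act M.ψ (M.iL l₂) (rep y₀ j))) (M.iL l₁) *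
          scw M.ψ (act M.ψ (M.iL l₂) (rep y₀ j)) (M.iB b₁) *
          scw M.ψ (rep y₀ j) (M.iL l₂) := by
        intro j
        rw [rep, List.replicate_add, scw_append, hs, scw_mul, scw_mul]
      by_cases hfix : ∀ j, l₂.1 (rep y₀ j) = rep y₀ j
      · obtain ⟨j₀, hj₀⟩ := hst l₂.1 l₂.2 hfix
        refine ⟨j₀, fun j hj => ?_⟩
        have hcj : l₂.1.sec (rep y₀ j) ∈ fixB L y₀ := by
          obtain ⟨i, rfl⟩ := Nat.exists_eq_add_of_le hj
          rw [rep, List.replicate_add, sec_append, sec_rep_of_mem_fixB hj₀]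
          exact hj₀
        rw [hsec, M.act_iL, hfix, M.scw_iL, M.scw_iL, M.scw_iB_rep,
          M.agree _ _ hcj, mul_assoc, mul_assoc, ← map_mul, ← map_mul]
        exact M.short_iL_mul_iB _ _
      · push Not at hfix
        obtain ⟨j₀, hj₀⟩ := hfix
        refine ⟨j₀, fun j hj => ?_⟩
        have hne : l₂.1 (rep y₀ j) ≠ rep y₀ (l₂.1 (rep y₀ j)).length := by
          rw [length_apply]
          intro h
          apply hj₀
          obtain ⟨i, rfl⟩ := Nat.exists_eq_add_of_le hj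
          have e : rep y₀ (j₀ + i) = rep y₀ j₀ ++ rep y₀ i := List.replicate_add _ _ _
          rw [e, apply_append] at h
          have h2 := congrArg (List.take j₀) h
          rw [List.take_append_of_le_length (by simp), List.take_of_length_le (by simp)] at h2
          rw [h2, List.length_append, List.length_replicate, List.length_replicate]
          simp [rep, List.take_replicate]
        obtain ⟨l₃, hl₃⟩ := M.scw_iB_ne _ b₁ hne
        rw [hsec, M.act_iL, hl₃, M.scw_iL, M.scw_iL, ← map_mul, ← map_mul]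
        exact M.short_iL_mul_iB _ _
    obtain ⟨j₀, hj₀⟩ := key
    refine ⟨n + j₀, fun v hv => ?_⟩
    rw [scw_mul]
    by_cases hvr : v = rep y₀ v.length
    · rw [hvr, M.act_iB, apply_rep_of_mem_fixB b.2, M.scw_iB_rep]
      obtain ⟨i, hi⟩ := Nat.exists_eq_add_of_le hv
      have := hj₀ (j₀ + i) (by omega)
      rwa [← add_assoc, ← hi] at this
    · obtain ⟨l₃, hl₃⟩ := M.scw_iB_ne v b hvr
      rw [hl₃]
      exact (hn _ (by rw [length_apply]; omega)).mul_iL _
  have hmem : γ ∈ Subgroup.closure (Set.range M.iL ∪ Set.range M.iB) := by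
    rw [M.gen]; trivial
  induction hmem using Subgroup.closure_induction_right with
  | one => exact ⟨0, fun v _ => by rw [scw_one]; exact ⟨1, 1, 1, by simp⟩⟩
  | mul_right x hx y hy ih =>
    rcases hy with ⟨l, rfl⟩ | ⟨b, rfl⟩
    · exact key1 _ _ ih
    · exact key2 _ _ ih
  | mul_inv_cancel x hx y hy ih =>
    rcases hy with ⟨l, rfl⟩ | ⟨b, rfl⟩
    · rw [← map_inv]; exact key1 _ _ ih
    · rw [← map_inv]; exact key2 _ _ ih

/-- An element of the model acting trivially on the tree is killed by an iterate of the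
recursion. -/
theorem eventually_one (M : Model L hL y₀ Γ) (hst : Stab L y₀) {γ : Γ}
    (h : act M.ψ γ = 1) : ∃ n, ∀ v : List Y, n ≤ v.length → scw M.ψ v γ = 1 := by
  obtain ⟨n, hn⟩ := M.eventually_short hst γ
  refine ⟨n, fun v hv => (hn v hv).eq_one ?_⟩
  rw [act_scw, h, sec_one]

end Model

/-! ### The stabilisation property passes to the next group -/

/-- The model consisting of the generated subgroup itself. -/
def selfModel (L : Subgroup (TreeAut Y)) (hL : SecClosed L) (y₀ : Y) :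
    Model L hL y₀ (genB L y₀) where
  ψ := recOf (genB L y₀) (secClosed_genB hL y₀)
  iL := Subgroup.inclusion (le_genB L y₀)
  iB := Subgroup.inclusion (fixB_le_genB L y₀)
  agree _ _ _ := rfl
  ψL_perm _ := rfl
  ψL_fn _ _ := rfl
  ψB_perm _ := rfl
  ψB_fn_self b := Subtype.ext b.2.2.1
  ψB_fn _ _ _ := rfl
  gen := by
    rw [eq_top_iff]
    intro x _
    have h1 : Set.range (Subgroup.inclusion (le_genB L y₀)) ∪
        Set.range (Subgroup.inclusion (fixB_le_genB L y₀)) =
        (genB L y₀).subtype ⁻¹' ((L : Set (TreeAut Y)) ∪ fixB L y₀) := by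
      ext z
      constructor
      · rintro (⟨l, rfl⟩ | ⟨l, rfl⟩)
        · exact Or.inl l.2
        · exact Or.inr l.2
      · rintro (h | h)
        · exact Or.inl ⟨⟨z.1, h⟩, rfl⟩
        · exact Or.inr ⟨⟨z.1, h⟩, rfl⟩
    rw [h1]
    have hcl : genB L y₀ = Subgroup.closure ((L : Set (TreeAut Y)) ∪ fixB L y₀) := by
      rw [Subgroup.closure_union, Subgroup.closure_eq, Subgroup.closure_eq, genB]
    have hsub : (L : Set (TreeAut Y)) ∪ fixB L y₀ ⊆ genB L y₀ := by
      rw [hcl]; exact Subgroup.subset_closure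
    have h2 : (Subgroup.closure ((genB L y₀).subtype ⁻¹'
        ((L : Set (TreeAut Y)) ∪ fixB L y₀))).map (genB L y₀).subtype = genB L y₀ := by
      rw [MonoidHom.map_closure, Set.image_preimage_eq_of_subset, ← hcl]
      rw [Subgroup.coe_subtype, Subtype.range_coe]
      exact hsub
    have h3 : x.1 ∈ (Subgroup.closure ((genB L y₀).subtype ⁻¹'
        ((L : Set (TreeAut Y)) ∪ fixB L y₀))).map (genB L y₀).subtype := by
      rw [h2]; exact x.2
    obtain ⟨z, hz, hzx⟩ := h3
    have : z = x := Subtype.ext hzx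
    rwa [← this]

/-- The sections along `y₀^∞` of an element of `next L y₀` fixing this ray are eventually
directed with other sections in `L`. -/
theorem sec_mem_fixB_of_mem_next {L : Subgroup (TreeAut Y)} (hL : SecClosed L) {y₀ : Y}
    (hst : Stab L y₀) (g : TreeAut Y) (hg : g ∈ next L y₀)
    (hfix : ∀ n, g (rep y₀ n) = rep y₀ n) :
    ∃ n, g.sec (rep y₀ n) ∈ fixB L y₀ := by
  have hrep : ∀ i j, rep y₀ (i + j) = rep y₀ i ++ rep y₀ j := fun i j =>
    List.replicate_add _ _ _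
  -- elements fixing the ray have sections fixing the ray
  have hfs : ∀ (h : TreeAut Y), (∀ n, h (rep y₀ n) = rep y₀ n) → ∀ i n,
      h.sec (rep y₀ i) (rep y₀ n) = rep y₀ n := by
    intro h hh i n
    have h1 := hh (i + n)
    rw [hrep, apply_append, hh i] at h1
    exact List.append_cancel_left h1
  -- for an element of `L` fixing the ray
  obtain ⟨n₀, hn₀⟩ := hg
  obtain ⟨n₁, hn₁⟩ := (selfModel L hL y₀).eventually_short hst
    ⟨g.sec (rep y₀ n₀), hn₀ _ (by simp)⟩
  obtain ⟨l, b, l', hs⟩ := hn₁ (rep y₀ n₁) (by simp)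
  have hs' : g.sec (rep y₀ (n₀ + n₁)) = l.1 * b.1 * l'.1 := by
    have h1 := congrArg Subtype.val hs
    rw [show (selfModel L hL y₀).ψ = recOf (genB L y₀) (secClosed_genB hL y₀) from rfl,
      scw_recOf] at h1
    rw [hrep, sec_append]
    exact h1
  have hsfix : ∀ n, (l.1 * b.1 * l'.1) (rep y₀ n) = rep y₀ n := by
    intro n
    rw [← hs']
    exact hfs g hfix _ _
  have hgoal : ∀ j, g.sec (rep y₀ (n₀ + n₁ + j)) = (l.1 * b.1 * l'.1).sec (rep y₀ j) := by
    intro j
    rw [hrep, sec_append, hs']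
  have hmono : ∀ (h : TreeAut Y) (j : ℕ), h.sec (rep y₀ j) ∈ fixB L y₀ →
      ∀ i, h.sec (rep y₀ (j + i)) ∈ fixB L y₀ := by
    intro h j hj i
    rw [hrep, sec_append, sec_rep_of_mem_fixB hj]
    exact hj
  by_cases hfix' : ∀ j, l'.1 (rep y₀ j) = rep y₀ j
  · have hb : ∀ j, b.1 (rep y₀ j) = rep y₀ j := apply_rep_of_mem_fixB b.2
    have hl : ∀ j, l.1 (rep y₀ j) = rep y₀ j := by
      intro j
      have h1 := hsfix j
      rwa [mul_apply, mul_apply, hfix' j, hb j] at h1
    obtain ⟨j₁, hj₁⟩ := hst l.1 l.2 hl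
    obtain ⟨j₂, hj₂⟩ := hst l'.1 l'.2 hfix'
    refine ⟨n₀ + n₁ + (j₁ + j₂), ?_⟩
    rw [hgoal, sec_mul, sec_mul, hfix', hb, sec_rep_of_mem_fixB b.2]
    refine Subgroup.mul_mem _ (Subgroup.mul_mem _ (hmono _ _ hj₁ _) b.2) ?_
    rw [add_comm]
    exact hmono _ _ hj₂ _
  · push Not at hfix'
    obtain ⟨j₀, hj₀⟩ := hfix'
    have hmem : (l.1 * b.1 * l'.1).sec (rep y₀ j₀) ∈ L := by
      rw [sec_mul, sec_mul]
      refine L.mul_mem (L.mul_mem (hL.sec_mem _ _ l.2) ?_) (hL.sec_mem _ _ l'.2)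
      apply sec_mem_of_ne_rep hL b.2
      rw [length_apply, List.length_replicate]
      exact hj₀
    obtain ⟨j₁, hj₁⟩ := hst _ hmem (fun n => hfs _ hsfix _ _)
    refine ⟨n₀ + n₁ + (j₀ + j₁), ?_⟩
    rw [hgoal, hrep, sec_append]
    exact hj₁

theorem stab_next {L : Subgroup (TreeAut Y)} (hL : SecClosed L) {y₀ : Y}
    (hst : Stab L y₀) : Stab (next L y₀) y₀ := by
  intro g hg hfix
  obtain ⟨n, hn⟩ := sec_mem_fixB_of_mem_next hL hst g hg hfix
  exact ⟨n, fixB_mono (le_next hL y₀) y₀ hn⟩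

/-- The directed elements of the next level that lie in `next L y₀` are the directed elements
of the previous level. -/
theorem next_inf_fixB {L : Subgroup (TreeAut Y)} (hL : SecClosed L) {y₀ : Y}
    (hst : Stab L y₀) : next L y₀ ⊓ fixB (next L y₀) y₀ = fixB L y₀ := by
  apply le_antisymm
  · rintro t ⟨h1, h2⟩
    obtain ⟨n, hn⟩ := sec_mem_fixB_of_mem_next hL hst t h1 (apply_rep_of_mem_fixB h2)
    rwa [sec_rep_of_mem_fixB h2] at hn
  · exact le_inf ((fixB_le_genB L y₀).trans (genB_le_next hL y₀))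
      (fixB_mono (le_next hL y₀) y₀)

/-! ### Finitary automorphisms -/

/-- The group of finitary automorphisms. -/
def finitary (Y : Type*) : Subgroup (TreeAut Y) := evIn ⊥

lemma secClosed_finitary : SecClosed (finitary Y) := secClosed_evIn _

lemma mem_finitary {g : TreeAut Y} :
    g ∈ finitary Y ↔ ∃ n, ∀ v : List Y, n ≤ v.length → g.sec v = 1 := by
  rw [finitary, mem_evIn]
  simp only [Subgroup.mem_bot]

lemma stab_finitary (y₀ : Y) : Stab (finitary Y) y₀ := by
  intro g hg _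
  obtain ⟨n, hn⟩ := mem_finitary.1 hg
  refine ⟨n, ?_⟩
  rw [hn _ (by simp)]
  exact Subgroup.one_mem _

lemma finitary_inf_fixB (y₀ : Y) : finitary Y ⊓ fixB (finitary Y) y₀ = ⊥ := by
  rw [eq_bot_iff]
  rintro t ⟨h1, h2⟩
  obtain ⟨n, hn⟩ := mem_finitary.1 h1
  have := hn (rep y₀ n) (by simp)
  rw [sec_rep_of_mem_fixB h2] at this
  exact this

/-- The tower `N_0 = Fin`, `N_(k+1) = next N_k`. -/
def tower (y₀ : Y) : ℕ → Subgroup (TreeAut Y)
  | 0 => finitary Y
  | k + 1 => next (tower y₀ k) y₀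

lemma secClosed_tower (y₀ : Y) (k : ℕ) : SecClosed (tower y₀ k) := by
  cases k with
  | zero => exact secClosed_finitary
  | succ k => exact secClosed_next _ _

lemma stab_tower (y₀ : Y) (k : ℕ) : Stab (tower y₀ k) y₀ := by
  induction k with
  | zero => exact stab_finitary y₀
  | succ k ih => exact stab_next (secClosed_tower y₀ k) ih

lemma tower_le_succ (y₀ : Y) (k : ℕ) : tower y₀ k ≤ tower y₀ (k + 1) :=
  le_next (secClosed_tower y₀ k) y₀

lemma tower_mono (y₀ : Y) : Monotone (tower y₀) :=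
  monotone_nat_of_le_succ (tower_le_succ y₀)

lemma mem_tower_of_sec [Finite Y] (y₀ : Y) (k : ℕ) {g : TreeAut Y}
    (h : ∀ y, g.sec [y] ∈ tower y₀ k) : g ∈ tower y₀ k := by
  cases k with
  | zero => exact mem_evIn_of_sec h
  | succ k => exact mem_evIn_of_sec h

end Pool.Agent.MP98022b
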