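import Mathlib

/-!
# Automorphisms of the rooted tree of finite words, and their sections
-/

namespace Pool.Agent.MP98022b

section Tree

variable {X : Type*}

/-- The automorphism group of the rooted tree `X^*` of finite words over `X`: the permutations
of the set of words that preserve the length and the prefixes. -/
def treeAut (X : Type*) : Subgroup (Equiv.Perm (List X)) where
  carrier := {g | (∀ w, (g w).length = w.length) ∧ ∀ u w, g u <+: g (u ++ w)}
  one_mem' := ⟨fun _ => rfl, fun u w => List.prefix_append u w⟩
  mul_mem' := by
    rintro g h ⟨hg1, hg2⟩ ⟨hh1, hh2⟩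
    refine ⟨fun w => ?_, fun u w => ?_⟩
    · show (g (h w)).length = _
      rw [hg1, hh1]
    · show g (h u) <+: g (h (u ++ w))
      obtain ⟨t, ht⟩ := hh2 u w
      rw [← ht]
      exact hg2 _ _
  inv_mem' := by
    rintro g ⟨hg1, hg2⟩
    have hl : ∀ w, (g⁻¹ w).length = w.length := by
      intro w
      have := hg1 (g⁻¹ w)
      rw [← this, show g (g⁻¹ w) = w from g.apply_symm_apply w]
    refine ⟨hl, fun u w => ?_⟩
    have h1 : g ((g⁻¹ (u ++ w)).take u.length) <+: u ++ w := by
      have := hg2 ((g⁻¹ (u ++ w)).take u.length) ((g⁻¹ (u ++ w)).drop u.length)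
      rwa [List.take_append_drop,
        show g (g⁻¹ (u ++ w)) = u ++ w from g.apply_symm_apply _] at this
    have h2 : (g ((g⁻¹ (u ++ w)).take u.length)).length = u.length := by
      rw [hg1, List.length_take, hl, List.length_append]
      omega
    have h3 : g ((g⁻¹ (u ++ w)).take u.length) = u := by
      rw [List.prefix_iff_eq_take.1 h1, h2]
      simp
    have h4 : (g⁻¹ (u ++ w)).take u.length = g⁻¹ u := by
      conv_rhs => rw [← h3]
      exact (g.symm_apply_apply _).symm
    rw [← h4]
    exact List.take_prefix _ _

/-- The type of automorphisms of the rooted tree `X^*`. -/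
abbrev TreeAut (X : Type*) : Type _ := treeAut X

namespace TreeAut

instance : CoeFun (TreeAut X) (fun _ => List X → List X) := ⟨fun g => ⇑g.1⟩

@[simp] lemma one_apply (w : List X) : (1 : TreeAut X) w = w := rfl

@[simp] lemma mul_apply (g h : TreeAut X) (w : List X) : (g * h) w = g (h w) := rfl

@[simp] lemma length_apply (g : TreeAut X) (w : List X) : (g w).length = w.length := g.2.1 w

@[simp] lemma apply_nil (g : TreeAut X) : g [] = [] := by
  have := length_apply g []
  exact List.length_eq_zero_iff.1 this

lemma prefix_apply (g : TreeAut X) (u w : List X) : g u <+: g (u ++ w) := g.2.2 u w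

@[simp] lemma inv_apply_self (g : TreeAut X) (w : List X) : (g⁻¹) (g w) = w :=
  g.1.symm_apply_apply w

@[simp] lemma apply_inv_self (g : TreeAut X) (w : List X) : g (g⁻¹ w) = w :=
  g.1.apply_symm_apply w

lemma apply_injective (g : TreeAut X) : Function.Injective g.1 := g.1.injective

lemma ext_fun {g h : TreeAut X} (H : ∀ w, g w = h w) : g = h :=
  Subtype.ext (Equiv.ext H)

/-- The section `g|_v` as a function: `g (v ++ w) = g v ++ (g|_v) w`. -/
def secFun (g : TreeAut X) (v w : List X) : List X := (g (v ++ w)).drop v.length

lemma apply_append_secFun (g : TreeAut X) (v w : List X) :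
    g (v ++ w) = g v ++ secFun g v w := by
  have h := List.prefix_iff_eq_append.1 (prefix_apply g v w)
  rw [length_apply] at h
  exact h.symm

/-- The section `g|_v` of a tree automorphism at a word `v`: the tree automorphism with
`g (v ++ w) = g v ++ (g|_v) w` for all `w`. -/
def sec (g : TreeAut X) (v : List X) : TreeAut X :=
  ⟨{ toFun := fun w => secFun g v w
     invFun := fun w => secFun g⁻¹ (g v) w
     left_inv := fun w => by
       have h1 := apply_append_secFun g⁻¹ (g v) (secFun g v w)
       rw [← apply_append_secFun, inv_apply_self, inv_apply_self] at h1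
       exact (List.append_cancel_left h1).symm
     right_inv := fun w => by
       have h1 := apply_append_secFun g⁻¹ (g v) w
       rw [inv_apply_self] at h1
       have h2 := apply_append_secFun g v (secFun g⁻¹ (g v) w)
       rw [← h1, apply_inv_self] at h2
       exact (List.append_cancel_left h2).symm },
   by
     refine ⟨fun w => ?_, fun u w => ?_⟩
     · show (secFun g v w).length = w.length
       rw [secFun, List.length_drop, length_apply, List.length_append]
       omega
     · show secFun g v u <+: secFun g v (u ++ w)
       have h := prefix_apply g (v ++ u) w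
       rw [List.append_assoc, apply_append_secFun g v u, apply_append_secFun g v (u ++ w)] at h
       exact (List.prefix_append_right_inj _).1 h⟩

lemma apply_append (g : TreeAut X) (v w : List X) : g (v ++ w) = g v ++ sec g v w :=
  apply_append_secFun g v w

lemma sec_unique {g s : TreeAut X} {v : List X} (h : ∀ w, g (v ++ w) = g v ++ s w) :
    sec g v = s := by
  refine ext_fun fun w => ?_
  have h1 := h w
  rw [apply_append] at h1
  exact List.append_cancel_left h1

@[simp] lemma sec_one (v : List X) : sec (1 : TreeAut X) v = 1 :=
  sec_unique fun _ => rfl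

@[simp] lemma sec_nil (g : TreeAut X) : sec g [] = g :=
  sec_unique fun w => by simp

lemma sec_mul (g h : TreeAut X) (v : List X) : sec (g * h) v = sec g (h v) * sec h v :=
  sec_unique fun w => by
    rw [mul_apply, apply_append, apply_append, mul_apply, mul_apply]

lemma sec_append (g : TreeAut X) (u v : List X) : sec g (u ++ v) = sec (sec g u) v :=
  sec_unique fun w => by
    rw [List.append_assoc, apply_append, apply_append, apply_append, List.append_assoc]

lemma sec_inv (g : TreeAut X) (v : List X) : sec g⁻¹ v = (sec g (g⁻¹ v))⁻¹ := by
  have h := sec_mul g g⁻¹ v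
  rw [mul_inv_cancel, sec_one] at h
  exact eq_inv_of_mul_eq_one_right h.symm

lemma sec_inv' (g : TreeAut X) (v : List X) : sec g⁻¹ (g v) = (sec g v)⁻¹ := by
  rw [sec_inv, inv_apply_self]

/-- The action on the first level of the tree, as a function. -/
def rootFun (g : TreeAut X) (x : X) : X :=
  (g [x]).head (by
    intro h
    have := length_apply g [x]
    rw [h] at this
    simp at this)

lemma apply_singleton_rootFun (g : TreeAut X) (x : X) : g [x] = [rootFun g x] := by
  have h := length_apply g [x]
  obtain ⟨y, hy⟩ := List.length_eq_one_iff.1 h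
  have : rootFun g x = y := by
    simp only [rootFun, hy, List.head_cons]
  rw [this, hy]

/-- The permutation of the first level of the tree induced by an automorphism. -/
def root (g : TreeAut X) : Equiv.Perm X where
  toFun := rootFun g
  invFun := rootFun g⁻¹
  left_inv := fun x => by
    have h := apply_singleton_rootFun g⁻¹ (rootFun g x)
    rw [← apply_singleton_rootFun, inv_apply_self] at h
    exact (List.cons.inj h).1.symm
  right_inv := fun x => by
    have h := apply_singleton_rootFun g (rootFun g⁻¹ x)
    rw [← apply_singleton_rootFun, apply_inv_self] at h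
    exact (List.cons.inj h).1.symm

lemma apply_singleton (g : TreeAut X) (x : X) : g [x] = [root g x] :=
  apply_singleton_rootFun g x

lemma apply_cons (g : TreeAut X) (x : X) (w : List X) :
    g (x :: w) = root g x :: sec g [x] w := by
  have h := apply_append g [x] w
  rwa [apply_singleton] at h

@[simp] lemma root_one : root (1 : TreeAut X) = 1 := by
  ext x
  have h := apply_singleton (1 : TreeAut X) x
  rw [one_apply] at h
  exact (List.cons.inj h).1.symm

lemma root_mul (g h : TreeAut X) : root (g * h) = root g * root h := by
  ext x
  have h1 := apply_singleton (g * h) x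
  rw [mul_apply, apply_singleton, apply_singleton] at h1
  exact (List.cons.inj h1).1.symm

lemma root_inv (g : TreeAut X) : root g⁻¹ = (root g)⁻¹ := by
  have h := root_mul g⁻¹ g
  rw [inv_mul_cancel, root_one] at h
  exact eq_inv_of_mul_eq_one_left h.symm

lemma ext_root {g h : TreeAut X} (h1 : root g = root h) (h2 : ∀ x, sec g [x] = sec h [x]) :
    g = h := by
  refine ext_fun fun w => ?_
  cases w with
  | nil => simp
  | cons x w => rw [apply_cons, apply_cons, h1, h2]

lemma sec_cons (g : TreeAut X) (x : X) (v : List X) : sec g (x :: v) = sec (sec g [x]) v :=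
  sec_append g [x] v

/-- The tree automorphism acting at the first level by `σ`, with sections `f x`, as a
function. -/
def mkFun (σ : Equiv.Perm X) (f : X → TreeAut X) : List X → List X
  | [] => []
  | x :: w => σ x :: f x w

/-- The tree automorphism acting at the first level by `σ`, with sections `f x`. -/
def mk' (σ : Equiv.Perm X) (f : X → TreeAut X) : TreeAut X :=
  ⟨{ toFun := mkFun σ f
     invFun := mkFun σ⁻¹ (fun x => (f (σ⁻¹ x))⁻¹)
     left_inv := fun w => by
       cases w with
       | nil => rfl
       | cons x w => simp [mkFun]
     right_inv := fun w => by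
       cases w with
       | nil => rfl
       | cons x w => simp [mkFun] },
   by
     refine ⟨fun w => ?_, fun u w => ?_⟩
     · cases w with
       | nil => rfl
       | cons x w =>
         show (σ x :: f x w).length = _
         simp
     · cases u with
       | nil => exact List.nil_prefix
       | cons x u =>
         show (σ x :: f x u) <+: (σ x :: f x (u ++ w))
         exact (List.prefix_cons_inj _).2 (prefix_apply _ _ _)⟩

lemma mk'_cons (σ : Equiv.Perm X) (f : X → TreeAut X) (x : X) (w : List X) :
    mk' σ f (x :: w) = σ x :: f x w := rfl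

@[simp] lemma root_mk' (σ : Equiv.Perm X) (f : X → TreeAut X) : root (mk' σ f) = σ := by
  ext x
  have h := apply_singleton (mk' σ f) x
  rw [mk'_cons] at h
  exact (List.cons.inj h).1.symm

@[simp] lemma sec_mk' (σ : Equiv.Perm X) (f : X → TreeAut X) (x : X) :
    sec (mk' σ f) [x] = f x := by
  refine ext_fun fun w => ?_
  have h := apply_cons (mk' σ f) x w
  rw [mk'_cons] at h
  exact (List.cons.inj h).2.symm

/-- Words `y₀^n`. -/
abbrev rep (y₀ : X) (n : ℕ) : List X := List.replicate n y₀

end TreeAut

end Tree

section EvIn

open TreeAut

variable {Y : Type*}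

/-- The automorphisms all of whose deep enough sections lie in `M`. -/
def evIn (M : Subgroup (TreeAut Y)) : Subgroup (TreeAut Y) where
  carrier := {g | ∃ n, ∀ v : List Y, n ≤ v.length → g.sec v ∈ M}
  one_mem' := ⟨0, fun v _ => by rw [sec_one]; exact M.one_mem⟩
  mul_mem' := by
    rintro g h ⟨n, hn⟩ ⟨m, hm⟩
    refine ⟨max n m, fun v hv => ?_⟩
    rw [sec_mul]
    exact M.mul_mem (hn _ (by rw [length_apply]; exact le_of_max_le_left hv))
      (hm _ (le_of_max_le_right hv))
  inv_mem' := by
    rintro g ⟨n, hn⟩
    refine ⟨n, fun v hv => ?_⟩
    rw [sec_inv]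
    exact M.inv_mem (hn _ (by rw [length_apply]; exact hv))

lemma mem_evIn {M : Subgroup (TreeAut Y)} {g : TreeAut Y} :
    g ∈ evIn M ↔ ∃ n, ∀ v : List Y, n ≤ v.length → g.sec v ∈ M := Iff.rfl

end EvIn

end Pool.Agent.MP98022b
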