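import Pool.Agent.Lib.MP_98022b_h30.Tree

/-!
# Wreath products with symmetric groups, wreath recursions and their action on the tree
-/

namespace Pool.Agent.MP98022b

/-- The permutational wreath product `G ≀ Sym(Y)`: pairs of a permutation of `Y` and a function
`Y → G`, with `(σ, f) (τ, g) = (σ τ, y ↦ f (τ y) g y)`. -/
@[ext] structure Wr (G : Type*) (Y : Type*) where
  /-- the permutation -/
  perm : Equiv.Perm Y
  /-- the sections -/
  fn : Y → G

namespace Wr

variable {G H K Y : Type*} [Group G] [Group H] [Group K]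

instance : Mul (Wr G Y) := ⟨fun a b => ⟨a.perm * b.perm, fun y => a.fn (b.perm y) * b.fn y⟩⟩
instance : One (Wr G Y) := ⟨⟨1, fun _ => 1⟩⟩
instance : Inv (Wr G Y) := ⟨fun a => ⟨a.perm⁻¹, fun y => (a.fn (a.perm⁻¹ y))⁻¹⟩⟩

@[simp] lemma mul_perm (a b : Wr G Y) : (a * b).perm = a.perm * b.perm := rfl
@[simp] lemma mul_fn (a b : Wr G Y) (y : Y) : (a * b).fn y = a.fn (b.perm y) * b.fn y := rfl
@[simp] lemma one_perm : (1 : Wr G Y).perm = 1 := rfl
@[simp] lemma one_fn (y : Y) : (1 : Wr G Y).fn y = 1 := rfl
@[simp] lemma inv_perm (a : Wr G Y) : (a⁻¹).perm = a.perm⁻¹ := rfl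
@[simp] lemma inv_fn (a : Wr G Y) (y : Y) : (a⁻¹).fn y = (a.fn (a.perm⁻¹ y))⁻¹ := rfl

instance : Group (Wr G Y) where
  mul_assoc a b c := by
    apply Wr.ext
    · simp [mul_assoc]
    · funext y
      simp [mul_assoc]
  one_mul a := by
    apply Wr.ext
    · simp
    · funext y
      simp
  mul_one a := by
    apply Wr.ext
    · simp
    · funext y
      simp
  inv_mul_cancel a := by
    apply Wr.ext
    · simp
    · funext y
      simp

/-- Functoriality of the wreath product. -/
def map (f : G →* H) : Wr G Y →* Wr H Y where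
  toFun a := ⟨a.perm, fun y => f (a.fn y)⟩
  map_one' := by
    apply Wr.ext
    · rfl
    · funext y
      exact f.map_one
  map_mul' a b := by
    apply Wr.ext
    · rfl
    · funext y
      exact f.map_mul _ _

@[simp] lemma map_perm (f : G →* H) (a : Wr G Y) : (map f a).perm = a.perm := rfl
@[simp] lemma map_fn (f : G →* H) (a : Wr G Y) (y : Y) : (map f a).fn y = f (a.fn y) := rfl

/-- The projection of the wreath product to the symmetric group. -/
def permHom : Wr G Y →* Equiv.Perm Y where
  toFun a := a.perm
  map_one' := rfl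
  map_mul' _ _ := rfl

@[simp] lemma permHom_apply (a : Wr G Y) : permHom a = a.perm := rfl

/-- The kernel of the projection to the symmetric group is the power of `G`. -/
def kerHom : (permHom (G := G) (Y := Y)).ker →* (Y → G) where
  toFun a := a.1.fn
  map_one' := rfl
  map_mul' a b := by
    funext y
    have hb : b.1.perm = 1 := b.2
    show a.1.fn (b.1.perm y) * b.1.fn y = a.1.fn y * b.1.fn y
    rw [hb]
    rfl

lemma kerHom_injective : Function.Injective (kerHom (G := G) (Y := Y)) := by
  intro a b h
  have ha : a.1.perm = 1 := a.2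
  have hb : b.1.perm = 1 := b.2
  apply Subtype.ext
  apply Wr.ext
  · rw [ha, hb]
  · exact h

/-- The trivial-permutation embedding `G^Y → G ≀ Sym(Y)`. -/
def base : (Y → G) →* Wr G Y where
  toFun f := ⟨1, f⟩
  map_one' := rfl
  map_mul' f g := by
    apply Wr.ext
    · simp
    · funext y
      rfl

/-- The embedding `Sym(Y) → G ≀ Sym(Y)`. -/
def ofPerm : Equiv.Perm Y →* Wr G Y where
  toFun σ := ⟨σ, fun _ => 1⟩
  map_one' := rfl
  map_mul' f g := by
    apply Wr.ext
    · rfl
    · funext y
      simp

end Wr

/-! ### Wreath recursions -/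

section Recursion

variable {G Y : Type*} [Group G]

/-- The action on words defined by a wreath recursion, as a function. -/
def actFun (ψ : G →* Wr G Y) : List Y → G → List Y
  | [], _ => []
  | y :: w, g => (ψ g).perm y :: actFun ψ w ((ψ g).fn y)

@[simp] lemma actFun_nil (ψ : G →* Wr G Y) (g : G) : actFun ψ [] g = [] := rfl

lemma actFun_cons (ψ : G →* Wr G Y) (g : G) (y : Y) (w : List Y) :
    actFun ψ (y :: w) g = (ψ g).perm y :: actFun ψ w ((ψ g).fn y) := rfl

lemma actFun_one (ψ : G →* Wr G Y) (w : List Y) : actFun ψ w 1 = w := by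
  induction w with
  | nil => rfl
  | cons y w ih => simp [actFun_cons, ih]

lemma actFun_mul (ψ : G →* Wr G Y) (w : List Y) (g h : G) :
    actFun ψ w (g * h) = actFun ψ (actFun ψ w h) g := by
  induction w generalizing g h with
  | nil => rfl
  | cons y w ih =>
    rw [actFun_cons, actFun_cons, actFun_cons, map_mul, Wr.mul_fn, ih, Wr.mul_perm]
    rfl

lemma length_actFun (ψ : G →* Wr G Y) (w : List Y) (g : G) :
    (actFun ψ w g).length = w.length := by
  induction w generalizing g with
  | nil => rfl
  | cons y w ih => simp [actFun_cons, ih]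

lemma prefix_actFun (ψ : G →* Wr G Y) (u w : List Y) (g : G) :
    actFun ψ u g <+: actFun ψ (u ++ w) g := by
  induction u generalizing g with
  | nil => exact List.nil_prefix
  | cons y u ih =>
    rw [List.cons_append, actFun_cons, actFun_cons, List.prefix_cons_inj]
    exact ih _

/-- The homomorphism to the automorphism group of the tree defined by a wreath recursion. -/
def act (ψ : G →* Wr G Y) : G →* TreeAut Y where
  toFun g := ⟨{ toFun := fun w => actFun ψ w g
                invFun := fun w => actFun ψ w g⁻¹
                left_inv := fun w => by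
                  show actFun ψ (actFun ψ w g) g⁻¹ = w
                  rw [← actFun_mul, inv_mul_cancel, actFun_one]
                right_inv := fun w => by
                  show actFun ψ (actFun ψ w g⁻¹) g = w
                  rw [← actFun_mul, mul_inv_cancel, actFun_one] },
              ⟨fun w => length_actFun ψ w g, fun u w => prefix_actFun ψ u w g⟩⟩
  map_one' := TreeAut.ext_fun fun w => actFun_one ψ w
  map_mul' g h := TreeAut.ext_fun fun w => actFun_mul ψ w g h

lemma act_apply (ψ : G →* Wr G Y) (g : G) (w : List Y) : act ψ g w = actFun ψ w g := rfl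

lemma root_act (ψ : G →* Wr G Y) (g : G) : (act ψ g).root = (ψ g).perm := by
  ext y
  have h := TreeAut.apply_singleton (act ψ g) y
  rw [act_apply, actFun_cons] at h
  exact (List.cons.inj h).1.symm

lemma sec_act (ψ : G →* Wr G Y) (g : G) (y : Y) :
    (act ψ g).sec [y] = act ψ ((ψ g).fn y) := by
  refine TreeAut.ext_fun fun w => ?_
  have h := TreeAut.apply_cons (act ψ g) y w
  rw [act_apply, actFun_cons] at h
  exact (List.cons.inj h).2.symm

/-- The iterated sections of a wreath recursion. -/
def scw (ψ : G →* Wr G Y) : List Y → G → G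
  | [], g => g
  | y :: w, g => scw ψ w ((ψ g).fn y)

@[simp] lemma scw_nil (ψ : G →* Wr G Y) (g : G) : scw ψ [] g = g := rfl

lemma scw_cons (ψ : G →* Wr G Y) (g : G) (y : Y) (w : List Y) :
    scw ψ (y :: w) g = scw ψ w ((ψ g).fn y) := rfl

lemma scw_append (ψ : G →* Wr G Y) (g : G) (u w : List Y) :
    scw ψ (u ++ w) g = scw ψ w (scw ψ u g) := by
  induction u generalizing g with
  | nil => rfl
  | cons y u ih => rw [List.cons_append, scw_cons, scw_cons, ih]

@[simp] lemma scw_one (ψ : G →* Wr G Y) (w : List Y) : scw ψ w 1 = 1 := by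
  induction w with
  | nil => rfl
  | cons y w ih => rw [scw_cons, map_one, Wr.one_fn, ih]

lemma scw_mul (ψ : G →* Wr G Y) (w : List Y) (g h : G) :
    scw ψ w (g * h) = scw ψ (act ψ h w) g * scw ψ w h := by
  induction w generalizing g h with
  | nil => rfl
  | cons y w ih =>
    rw [scw_cons, map_mul, Wr.mul_fn, ih, act_apply ψ h (y :: w), actFun_cons, scw_cons,
      scw_cons, act_apply]

lemma scw_inv (ψ : G →* Wr G Y) (w : List Y) (g : G) :
    scw ψ w g⁻¹ = (scw ψ (act ψ g⁻¹ w) g)⁻¹ := by
  have h := scw_mul ψ w g g⁻¹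
  rw [mul_inv_cancel, scw_one] at h
  exact eq_inv_of_mul_eq_one_right h.symm

lemma act_scw (ψ : G →* Wr G Y) (w : List Y) (g : G) :
    act ψ (scw ψ w g) = (act ψ g).sec w := by
  induction w generalizing g with
  | nil => simp
  | cons y w ih => rw [scw_cons, ih, TreeAut.sec_cons, sec_act]

/-- If `g` acts trivially then its sections are multiplicative in `g`, in particular the
section of a power is the power of the section. -/
lemma scw_pow_of_act_eq_one (ψ : G →* Wr G Y) (w : List Y) {g : G} (hg : act ψ g = 1) (n : ℕ) :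
    scw ψ w (g ^ n) = scw ψ w g ^ n := by
  induction n with
  | zero => simp
  | succ n ih => rw [pow_succ, scw_mul, hg, TreeAut.one_apply, ih, pow_succ]

/-- Two tree homomorphisms that satisfy the same recursion agree. -/
lemma hom_unique (ψ : G →* Wr G Y) (a : G →* TreeAut Y)
    (h1 : ∀ g, (a g).root = (ψ g).perm) (h2 : ∀ g y, (a g).sec [y] = a ((ψ g).fn y)) :
    a = act ψ := by
  ext g : 1
  refine TreeAut.ext_fun fun w => ?_
  induction w generalizing g with
  | nil => simp
  | cons y w ih =>
    rw [TreeAut.apply_cons, h1, h2, ih, act_apply, act_apply, actFun_cons]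

end Recursion

end Pool.Agent.MP98022b
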